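import Mathlib

open Matrix Finset

namespace Pool.Agent.Results.MP_c32163_co.ConcurrenceVariance

/-- A block design with `b` blocks, each block a multiset of `k` treatments from `Fin v`. -/
structure Design (v b k : ℕ) where
  block : Fin b → Multiset (Fin v)
  card_block : ∀ B, Multiset.card (block B) = k

namespace Design

variable {v b k : ℕ} (D : Design v b k)

/-- `n_iB`, the multiplicity of treatment `i` in block `B`. -/
def mult (i : Fin v) (B : Fin b) : ℕ := (D.block B).count i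

/-- `r_i`, the replication of treatment `i`. -/
def rep (i : Fin v) : ℕ := ∑ B, D.mult i B

/-- `λ_ij`, the concurrence of treatments `i` and `j`. -/
def conc (i j : Fin v) : ℕ := ∑ B, D.mult i B * D.mult j B

/-- Connected design: the concurrence graph (two distinct treatments adjacent when their
concurrence is positive) is connected. -/
def Connected : Prop := (SimpleGraph.fromRel fun i j : Fin v => 0 < D.conc i j).Connected

/-- The incidence matrix `N = (n_iB)`. -/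
def inc : Matrix (Fin v) (Fin b) ℝ := Matrix.of fun i B => (D.mult i B : ℝ)

/-- The information matrix `C = R - k⁻¹ N Nᵀ`, `R = diag(r_i)`. -/
noncomputable def info : Matrix (Fin v) (Fin v) ℝ :=
  Matrix.diagonal (fun i => (D.rep i : ℝ)) - (k : ℝ)⁻¹ • (D.inc * D.incᵀ)

/-- The non-trivial eigenvalues of `C` with multiplicity: all roots of its characteristic
polynomial except one copy of the trivial eigenvalue `0`. -/
noncomputable def eigs : Multiset ℝ := D.info.charpoly.roots.erase 0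

/-- `∑ 1/θ_i` over the non-trivial eigenvalues. -/
noncomputable def aVal : ℝ := (D.eigs.map fun t => t⁻¹).sum

/-- `∏ θ_i` over the non-trivial eigenvalues. -/
noncomputable def dVal : ℝ := D.eigs.prod

/-- The least non-trivial eigenvalue `θ_1`. -/
noncomputable def eVal : ℝ := sInf {t | t ∈ D.eigs}

/-- `A`-optimal in `D(v,b,k)`: connected, and `∑ 1/θ_i` is minimal among connected designs. -/
def AOptimal : Prop := D.Connected ∧ ∀ D' : Design v b k, D'.Connected → D.aVal ≤ D'.aVal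

/-- `D`-optimal in `D(v,b,k)`: connected, and `∏ θ_i` is maximal among connected designs. -/
def DOptimal : Prop := D.Connected ∧ ∀ D' : Design v b k, D'.Connected → D'.dVal ≤ D.dVal

/-- `E`-optimal in `D(v,b,k)`: connected, and `θ_1` is maximal among connected designs. -/
def EOptimal : Prop := D.Connected ∧ ∀ D' : Design v b k, D'.Connected → D'.eVal ≤ D.eVal

/-- `G` is a generalised inverse `C⁻` of the information matrix: `C G C = C`. -/
def IsGInv (G : Matrix (Fin v) (Fin v) ℝ) : Prop := D.info * G * D.info = D.info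

end Design

/-- `(e_i - e_j)ᵀ G (e_i - e_j)`; for a generalised inverse `G` of the information matrix this is
the pairwise variance `V_ij`. -/
noncomputable def pairVar {v : ℕ} (G : Matrix (Fin v) (Fin v) ℝ) (i j : Fin v) : ℝ :=
  (Pi.single i 1 - Pi.single j 1) ⬝ᵥ (G *ᵥ (Pi.single i 1 - Pi.single j 1))

section generic
variable {v : ℕ}


/-- the averaging matrix -/
noncomputable def avg (v : ℕ) : Matrix (Fin v) (Fin v) ℝ := Matrix.of fun _ _ => (v : ℝ)⁻¹

lemma avg_apply (i j : Fin v) : avg v i j = (v : ℝ)⁻¹ := rfl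

lemma avg_eq : avg v = replicateCol Unit (fun _ : Fin v => (1:ℝ)) * replicateRow Unit (fun _ : Fin v => (v:ℝ)⁻¹) := by
  ext i j
  simp [avg, Matrix.mul_apply]

lemma mul_avg {C : Matrix (Fin v) (Fin v) ℝ} (h : C *ᵥ (fun _ => 1) = 0) : C * avg v = 0 := by
  ext i j
  have := congrFun h i
  simp only [Matrix.mulVec, dotProduct, mul_one, Pi.zero_apply] at this
  simp only [Matrix.mul_apply, avg_apply, ← Finset.sum_mul, this, zero_mul, Matrix.zero_apply]

lemma det_one_sub_smul_avg (hv : 0 < v) (s : ℝ) : det (1 - s • avg v) = 1 - s := by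
  have h1 : (1 : Matrix (Fin v) (Fin v) ℝ) - s • avg v = 1 + replicateCol Unit (fun _ : Fin v => (1:ℝ)) * replicateRow Unit (fun _ : Fin v => -s * (v:ℝ)⁻¹) := by
    ext i j
    simp [avg, Matrix.mul_apply]
    ring
  rw [h1, Matrix.det_one_add_replicateCol_mul_replicateRow]
  have : (v:ℝ) ≠ 0 := by positivity
  simp [dotProduct]
  field_simp
  ring

open Polynomial in
lemma eval_charpoly' (C : Matrix (Fin v) (Fin v) ℝ) (t : ℝ) :
    C.charpoly.eval t = det (t • (1 : Matrix (Fin v) (Fin v) ℝ) - C) := by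
  rw [Matrix.eval_charpoly]
  congr 1
  rw [Matrix.smul_one_eq_diagonal]
  rfl

open Polynomial in
lemma charpoly_relation (hv : 0 < v) {C : Matrix (Fin v) (Fin v) ℝ} (h : C *ᵥ (fun _ => 1) = 0) :
    C.charpoly * (X - Polynomial.C 1) = X * (C + avg v).charpoly := by
  have key : X * (C.charpoly * (X - Polynomial.C 1)) = X * (X * (C + avg v).charpoly) := by
    apply Polynomial.funext
    intro t
    simp only [Polynomial.eval_mul, Polynomial.eval_X, Polynomial.eval_sub, Polynomial.eval_C,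
      eval_charpoly']
    by_cases ht : t = 0
    · simp [ht]
    congr 1
    have h2 : (t • (1 : Matrix (Fin v) (Fin v) ℝ) - C) * (1 - t⁻¹ • avg v) =
        t • (1 : Matrix (Fin v) (Fin v) ℝ) - (C + avg v) := by
      rw [Matrix.mul_sub, Matrix.mul_one, Matrix.sub_mul, Matrix.mul_smul, Matrix.mul_smul, mul_avg h]
      simp only [smul_zero, sub_zero, Matrix.smul_mul, Matrix.one_mul, smul_smul]
      rw [inv_mul_cancel₀ ht, one_smul]
      abel
    rw [← h2, Matrix.det_mul, det_one_sub_smul_avg hv]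
    field_simp
  exact mul_left_cancel₀ X_ne_zero key

open Polynomial in
lemma roots_relation (hv : 0 < v) {C : Matrix (Fin v) (Fin v) ℝ} (h : C *ᵥ (fun _ => 1) = 0) :
    (C + avg v).charpoly.roots = 1 ::ₘ (C.charpoly.roots.erase 0) := by
  have h1 := charpoly_relation hv h
  have hC : C.charpoly ≠ 0 := (Matrix.charpoly_monic C).ne_zero
  have hM : (C + avg v).charpoly ≠ 0 := (Matrix.charpoly_monic _).ne_zero
  have hX1 : (X - Polynomial.C (1:ℝ)) ≠ 0 := X_sub_C_ne_zero 1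
  have h2 := congrArg Polynomial.roots h1
  rw [Polynomial.roots_mul (mul_ne_zero hC hX1), Polynomial.roots_mul (mul_ne_zero X_ne_zero hM),
    Polynomial.roots_X_sub_C, Polynomial.roots_X] at h2
  have h3 : (0:ℝ) ∈ C.charpoly.roots := by
    have : (0:ℝ) ∈ C.charpoly.roots + {1} := by rw [h2]; simp
    rw [Multiset.mem_add] at this
    rcases this with h | h
    · exact h
    · simp at h
  have h4 : (C + avg v).charpoly.roots = (C.charpoly.roots + {1}).erase 0 := by
    rw [h2]; simp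
  rw [h4, Multiset.erase_add_left_pos _ h3, add_comm, Multiset.singleton_add]



lemma prod_roots {M : Matrix (Fin v) (Fin v) ℝ} (hM : M.IsHermitian) :
    M.charpoly.roots.prod = M.det := by
  rw [hM.roots_charpoly_eq_eigenvalues, hM.det_eq_prod_eigenvalues]
  simp [List.prod_ofFn]

lemma sum_inv_roots {M : Matrix (Fin v) (Fin v) ℝ} (hM : M.PosDef) :
    (M.charpoly.roots.map (fun t => t⁻¹)).sum = (M⁻¹).trace := by
  have hH := hM.isHermitian
  rw [hH.roots_charpoly_eq_eigenvalues, Multiset.map_map]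
  set U : Matrix (Fin v) (Fin v) ℝ := (hH.eigenvectorUnitary : Matrix (Fin v) (Fin v) ℝ) with hU
  have hU1 : star U * U = 1 := Unitary.coe_star_mul_self _
  have hU2 : U * star U = 1 := Unitary.coe_mul_star_self _
  have hs : M = U * diagonal hH.eigenvalues * star U := by
    have := hH.spectral_theorem
    rw [Unitary.conjStarAlgAut_apply] at this
    exact this
  have hpos : ∀ i, hH.eigenvalues i ≠ 0 := fun i => (hM.eigenvalues_pos i).ne'
  have hinv : M⁻¹ = U * diagonal (fun i => (hH.eigenvalues i)⁻¹) * star U := by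
    apply Matrix.inv_eq_right_inv
    calc M * (U * diagonal (fun i => (hH.eigenvalues i)⁻¹) * star U)
        = (U * diagonal hH.eigenvalues * star U) * (U * diagonal (fun i => (hH.eigenvalues i)⁻¹) * star U) := by
          rw [← hs]
      _ = U * diagonal hH.eigenvalues * (star U * U) * diagonal (fun i => (hH.eigenvalues i)⁻¹) * star U := by
          simp only [Matrix.mul_assoc]
      _ = U * (diagonal hH.eigenvalues * diagonal (fun i => (hH.eigenvalues i)⁻¹)) * star U := by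
          rw [hU1, Matrix.mul_one]; simp only [Matrix.mul_assoc]
      _ = 1 := by
          rw [Matrix.diagonal_mul_diagonal]
          have : (fun i => hH.eigenvalues i * (hH.eigenvalues i)⁻¹) = fun _ => (1:ℝ) := by
            funext i; exact mul_inv_cancel₀ (hpos i)
          rw [this, Matrix.diagonal_one, Matrix.mul_one, hU2]
  rw [hinv, Matrix.trace_mul_cycle, hU1, Matrix.one_mul, Matrix.trace_diagonal]
  simp [List.sum_ofFn]

/-- variational lower bound for the inverse quadratic form -/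
lemma inv_form_ge {M : Matrix (Fin v) (Fin v) ℝ} (hM : M.PosDef) (x f : Fin v → ℝ) :
    2 * (f ⬝ᵥ x) - f ⬝ᵥ (M *ᵥ f) ≤ x ⬝ᵥ (M⁻¹ *ᵥ x) := by
  have hH : Mᵀ = M := by
    have := hM.isHermitian
    rwa [Matrix.IsHermitian, Matrix.conjTranspose_eq_transpose_of_trivial] at this
  have hdet : IsUnit M.det := hM.det_pos.ne'.isUnit
  have h0 := hM.posSemidef.dotProduct_mulVec_nonneg (M⁻¹ *ᵥ x - f)
  simp only [star_trivial] at h0
  have e1 : M *ᵥ (M⁻¹ *ᵥ x - f) = x - M *ᵥ f := by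
    rw [Matrix.mulVec_sub, Matrix.mulVec_mulVec, Matrix.mul_nonsing_inv _ hdet, Matrix.one_mulVec]
  rw [e1] at h0
  have e2 : (M⁻¹ *ᵥ x) ⬝ᵥ (M *ᵥ f) = x ⬝ᵥ f := by
    rw [Matrix.dotProduct_mulVec, ← Matrix.mulVec_transpose, hH, Matrix.mulVec_mulVec,
      Matrix.mul_nonsing_inv _ hdet, Matrix.one_mulVec]
  simp only [sub_dotProduct, dotProduct_sub] at h0
  rw [e2, dotProduct_comm (M⁻¹ *ᵥ x) x, dotProduct_comm x f] at h0
  linarith

end generic

namespace Design

variable {v b k : ℕ} (D : Design v b k)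

lemma sum_mult (B : Fin b) : ∑ i, D.mult i B = k := by
  unfold mult
  exact (Multiset.sum_count_eq_card (fun a _ => Finset.mem_univ a)).trans (D.card_block B)

lemma sum_multR (B : Fin b) : ∑ i, (D.mult i B : ℝ) = k := by
  exact_mod_cast D.sum_mult B

lemma repR (i : Fin v) : (D.rep i : ℝ) = ∑ B, (D.mult i B : ℝ) := by
  unfold rep; push_cast; rfl

lemma info_mulVec (x : Fin v → ℝ) (i : Fin v) :
    (D.info *ᵥ x) i = D.rep i * x i - (k:ℝ)⁻¹ * ∑ B, (D.mult i B : ℝ) * ∑ j, (D.mult j B : ℝ) * x j := by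
  unfold info
  rw [Matrix.sub_mulVec, Pi.sub_apply, Matrix.mulVec_diagonal, Matrix.smul_mulVec, Pi.smul_apply,
    ← Matrix.mulVec_mulVec]
  simp [Matrix.mulVec, dotProduct, inc]

lemma info_one (hk : 0 < k) : D.info *ᵥ (fun _ => 1) = 0 := by
  funext i
  rw [info_mulVec]
  have hk' : (k:ℝ) ≠ 0 := by positivity
  simp only [mul_one, sum_multR, ← Finset.sum_mul, ← repR, Pi.zero_apply]
  field_simp
  ring

lemma info_symm : D.infoᵀ = D.info := by
  unfold info
  rw [Matrix.transpose_sub, Matrix.diagonal_transpose, Matrix.transpose_smul, Matrix.transpose_mul,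
    Matrix.transpose_transpose]

lemma form_eq (x : Fin v → ℝ) : x ⬝ᵥ (D.info *ᵥ x) =
    ∑ i, (D.rep i : ℝ) * x i ^ 2 - (k:ℝ)⁻¹ * ∑ B, (∑ i, (D.mult i B : ℝ) * x i) ^ 2 := by
  simp only [dotProduct, info_mulVec, mul_sub, Finset.sum_sub_distrib]
  congr 1
  · exact Finset.sum_congr rfl fun i _ => by ring
  · rw [Finset.mul_sum]
    have : ∀ i, x i * ((k:ℝ)⁻¹ * ∑ B, (D.mult i B : ℝ) * ∑ j, (D.mult j B : ℝ) * x j) =
        ∑ B, (k:ℝ)⁻¹ * (((D.mult i B : ℝ) * x i) * ∑ j, (D.mult j B : ℝ) * x j) := by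
      intro i
      rw [Finset.mul_sum, Finset.mul_sum]
      exact Finset.sum_congr rfl fun B _ => by ring
    rw [Finset.sum_congr rfl fun i _ => this i, Finset.sum_comm]
    refine Finset.sum_congr rfl fun B _ => ?_
    rw [← Finset.mul_sum, ← Finset.sum_mul, sq]

lemma form_eq' (hk : 0 < k) (x : Fin v → ℝ) : x ⬝ᵥ (D.info *ᵥ x) =
    (2 * (k:ℝ))⁻¹ * ∑ B, ∑ i, ∑ j, (D.mult i B : ℝ) * (D.mult j B : ℝ) * (x i - x j) ^ 2 := by
  rw [form_eq]
  have hk' : (k:ℝ) ≠ 0 := by positivity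
  have h1 : ∑ i, (D.rep i : ℝ) * x i ^ 2 = ∑ B, ∑ i, (D.mult i B : ℝ) * x i ^ 2 := by
    rw [Finset.sum_comm]
    exact Finset.sum_congr rfl fun i _ => by rw [repR, Finset.sum_mul]
  rw [h1, Finset.mul_sum, Finset.mul_sum, ← Finset.sum_sub_distrib]
  refine Finset.sum_congr rfl fun B _ => ?_
  have e : ∑ i, ∑ j, (D.mult i B : ℝ) * (D.mult j B : ℝ) * (x i - x j) ^ 2 =
      2 * (k * ∑ i, (D.mult i B : ℝ) * x i ^ 2) - 2 * (∑ i, (D.mult i B : ℝ) * x i) ^ 2 := by
    have e1 : ∑ i, ∑ j, (D.mult i B : ℝ) * (D.mult j B : ℝ) * (x i - x j) ^ 2 =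
        ∑ i, ∑ j, ((D.mult i B : ℝ) * x i ^ 2 * (D.mult j B : ℝ) + (D.mult i B : ℝ) * ((D.mult j B : ℝ) * x j ^ 2)
          - 2 * (((D.mult i B : ℝ) * x i) * ((D.mult j B : ℝ) * x j))) :=
      Finset.sum_congr rfl fun i _ => Finset.sum_congr rfl fun j _ => by ring
    rw [e1]
    simp only [Finset.sum_sub_distrib, Finset.sum_add_distrib, ← Finset.mul_sum, ← Finset.sum_mul, sum_multR]
    ring
  rw [e]
  field_simp

lemma form_nonneg (hk : 0 < k) (x : Fin v → ℝ) : 0 ≤ x ⬝ᵥ (D.info *ᵥ x) := by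
  rw [form_eq' D hk]
  refine mul_nonneg (by positivity) ?_
  exact Finset.sum_nonneg fun B _ => Finset.sum_nonneg fun i _ => Finset.sum_nonneg fun j _ => by positivity

lemma const_of_form_zero (hk : 0 < k) (hc : D.Connected) (x : Fin v → ℝ)
    (h : x ⬝ᵥ (D.info *ᵥ x) = 0) (i j : Fin v) : x i = x j := by
  rw [form_eq' D hk] at h
  have hk' : (2 * (k:ℝ))⁻¹ ≠ 0 := by positivity
  have h0 := (mul_eq_zero.mp h).resolve_left hk'
  have step : ∀ i j, 0 < D.conc i j → x i = x j := by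
    intro i j hij
    obtain ⟨B, -, hB⟩ := Finset.exists_ne_zero_of_sum_ne_zero (s := Finset.univ)
      (f := fun B => D.mult i B * D.mult j B) hij.ne'
    rw [Finset.sum_eq_zero_iff_of_nonneg (fun B _ => Finset.sum_nonneg fun i _ =>
      Finset.sum_nonneg fun j _ => by positivity)] at h0
    have h1 := h0 B (Finset.mem_univ _)
    rw [Finset.sum_eq_zero_iff_of_nonneg (fun i _ => Finset.sum_nonneg fun j _ => by positivity)] at h1
    have h2 := h1 i (Finset.mem_univ _)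
    rw [Finset.sum_eq_zero_iff_of_nonneg (fun j _ => by positivity)] at h2
    have h3 := h2 j (Finset.mem_univ _)
    have h4 : ((D.mult i B : ℝ) * (D.mult j B : ℝ)) ≠ 0 := by exact_mod_cast hB
    have h5 := (mul_eq_zero.mp h3).resolve_left h4
    have h6 := pow_eq_zero_iff (two_ne_zero) |>.mp h5
    linarith
  have conn := hc.preconnected i j
  obtain ⟨w⟩ := conn
  induction w with
  | nil => rfl
  | cons hadj _ ih =>
    rw [SimpleGraph.fromRel_adj] at hadj
    obtain ⟨-, h | h⟩ := hadj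
    · rw [step _ _ h]; exact ih
    · rw [← step _ _ h]; exact ih


noncomputable def M : Matrix (Fin v) (Fin v) ℝ := D.info + avg v

lemma form_avg (x : Fin v → ℝ) : x ⬝ᵥ (avg v *ᵥ x) = (v:ℝ)⁻¹ * (∑ i, x i) ^ 2 := by
  have : avg v *ᵥ x = fun _ => (v:ℝ)⁻¹ * ∑ i, x i := by
    funext i
    simp [Matrix.mulVec, dotProduct, avg, Finset.mul_sum]
  rw [this]
  simp only [dotProduct, ← Finset.sum_mul]
  ring

lemma form_M (x : Fin v → ℝ) : x ⬝ᵥ (D.M *ᵥ x) = x ⬝ᵥ (D.info *ᵥ x) + (v:ℝ)⁻¹ * (∑ i, x i) ^ 2 := by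
  unfold M
  rw [Matrix.add_mulVec, dotProduct_add, form_avg]

lemma M_symm : D.Mᵀ = D.M := by
  unfold M
  rw [Matrix.transpose_add, info_symm]
  congr 1

lemma M_herm : D.M.IsHermitian := by
  rw [Matrix.IsHermitian, Matrix.conjTranspose_eq_transpose_of_trivial]
  exact D.M_symm

lemma M_posDef (hv : 0 < v) (hk : 0 < k) (hc : D.Connected) : D.M.PosDef := by
  refine Matrix.PosDef.of_dotProduct_mulVec_pos D.M_herm ?_
  intro x hx
  simp only [star_trivial]
  rw [form_M]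
  have h1 := D.form_nonneg hk x
  have h2 : 0 ≤ (v:ℝ)⁻¹ * (∑ i, x i) ^ 2 := by positivity
  by_contra hcon
  push Not at hcon
  have h3 : x ⬝ᵥ (D.info *ᵥ x) = 0 := by linarith
  have h4 : (v:ℝ)⁻¹ * (∑ i, x i) ^ 2 = 0 := by linarith
  have hc' := D.const_of_form_zero hk hc x h3
  have hv' : (v:ℝ) ≠ 0 := by positivity
  have h5 : ∑ i, x i = 0 := by
    have := (mul_eq_zero.mp h4).resolve_left (inv_ne_zero hv')
    exact pow_eq_zero_iff (two_ne_zero) |>.mp this
  apply hx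
  funext i
  have h6 : ∑ j, x j = v * x i := by
    rw [Finset.sum_congr rfl fun j _ => hc' j i]
    simp
  rw [h5] at h6
  exact (mul_eq_zero.mp h6.symm).resolve_left hv'

lemma roots_M (hv : 0 < v) (hk : 0 < k) : D.M.charpoly.roots = 1 ::ₘ D.eigs :=
  roots_relation hv (D.info_one hk)

lemma dVal_eq (hv : 0 < v) (hk : 0 < k) : D.dVal = D.M.det := by
  rw [← prod_roots D.M_herm, roots_M D hv hk, Multiset.prod_cons, one_mul]
  rfl

lemma aVal_eq (hv : 0 < v) (hk : 0 < k) (hc : D.Connected) : D.aVal = (D.M⁻¹).trace - 1 := by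
  rw [← sum_inv_roots (D.M_posDef hv hk hc), roots_M D hv hk, Multiset.map_cons, Multiset.sum_cons]
  simp [aVal]

lemma mem_roots_ge {M : Matrix (Fin v) (Fin v) ℝ} (hM : M.IsHermitian) {c : ℝ}
    (h : ∀ x : Fin v → ℝ, c * (x ⬝ᵥ x) ≤ x ⬝ᵥ (M *ᵥ x)) {t : ℝ} (ht : t ∈ M.charpoly.roots) : c ≤ t := by
  rw [Polynomial.mem_roots (Matrix.charpoly_monic M).ne_zero, Polynomial.IsRoot.def, eval_charpoly'] at ht
  obtain ⟨x, hx0, hx⟩ := Matrix.exists_mulVec_eq_zero_iff.mpr ht
  rw [Matrix.sub_mulVec, Matrix.smul_mulVec, Matrix.one_mulVec, sub_eq_zero] at hx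
  have h1 := h x
  rw [← hx, dotProduct_smul, smul_eq_mul] at h1
  have h2 : 0 < x ⬝ᵥ x := by
    have h3 : x ⬝ᵥ x ≠ 0 := by
      intro h4
      exact hx0 (dotProduct_self_eq_zero.mp h4)
    have h5 : 0 ≤ x ⬝ᵥ x := by
      simp only [dotProduct]; exact Finset.sum_nonneg fun i _ => mul_self_nonneg _
    exact lt_of_le_of_ne h5 h3.symm
  exact le_of_mul_le_mul_right h1 h2

lemma exists_eig_le (hv : 0 < v) (hk : 0 < k) {ι : Type} [Fintype ι] (y : ι → Fin v → ℝ)
    (hy : ∀ a, ∑ i, y a i = 0) (a0 : ι) (hne : y a0 ≠ 0) {c : ℝ} (hc1 : c < 1)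
    (hsum : ∑ a, (y a ⬝ᵥ (D.info *ᵥ y a) - c * (y a ⬝ᵥ y a)) ≤ 0) : ∃ t ∈ D.eigs, t ≤ c := by
  by_contra hcon
  push Not at hcon
  -- all eigenvalues of `M` exceed `c`
  have hlt : ∀ t ∈ D.M.charpoly.roots, c < t := by
    intro t ht
    rw [roots_M D hv hk, Multiset.mem_cons] at ht
    rcases ht with rfl | ht
    · exact hc1
    · exact hcon t ht
  have hP : (D.M - c • (1 : Matrix (Fin v) (Fin v) ℝ)).PosDef := by
    have hH : (D.M - c • (1 : Matrix (Fin v) (Fin v) ℝ)).IsHermitian := by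
      rw [Matrix.IsHermitian, Matrix.conjTranspose_eq_transpose_of_trivial, Matrix.transpose_sub,
        Matrix.transpose_smul, Matrix.transpose_one, M_symm]
    rw [hH.posDef_iff_eigenvalues_pos]
    intro i
    have hmem : hH.eigenvalues i ∈ (D.M - c • (1 : Matrix (Fin v) (Fin v) ℝ)).charpoly.roots := by
      rw [hH.roots_charpoly_eq_eigenvalues]
      exact Multiset.mem_map.mpr ⟨i, Finset.mem_univ_val i, rfl⟩
    rw [Polynomial.mem_roots (Matrix.charpoly_monic _).ne_zero, Polynomial.IsRoot.def, eval_charpoly'] at hmem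
    have : hH.eigenvalues i + c ∈ D.M.charpoly.roots := by
      rw [Polynomial.mem_roots (Matrix.charpoly_monic _).ne_zero, Polynomial.IsRoot.def, eval_charpoly']
      rw [← hmem]
      congr 1
      rw [add_smul]
      abel
    have := hlt _ this
    linarith
  have hpos : ∀ x : Fin v → ℝ, 0 ≤ x ⬝ᵥ (D.M *ᵥ x) - c * (x ⬝ᵥ x) := by
    intro x
    have := hP.posSemidef.dotProduct_mulVec_nonneg x
    simp only [star_trivial] at this
    rw [Matrix.sub_mulVec, dotProduct_sub, Matrix.smul_mulVec, Matrix.one_mulVec, dotProduct_smul,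
      smul_eq_mul] at this
    exact this
  have hpos' : 0 < y a0 ⬝ᵥ (D.M *ᵥ y a0) - c * (y a0 ⬝ᵥ y a0) := by
    have := hP.dotProduct_mulVec_pos hne
    simp only [star_trivial] at this
    rw [Matrix.sub_mulVec, dotProduct_sub, Matrix.smul_mulVec, Matrix.one_mulVec, dotProduct_smul,
      smul_eq_mul] at this
    exact this
  have heq : ∀ a, y a ⬝ᵥ (D.info *ᵥ y a) = y a ⬝ᵥ (D.M *ᵥ y a) := by
    intro a
    rw [form_M, hy]
    ring
  have : 0 < ∑ a, (y a ⬝ᵥ (D.info *ᵥ y a) - c * (y a ⬝ᵥ y a)) := by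
    apply Finset.sum_pos'
    · intro a _; rw [heq]; exact hpos _
    · exact ⟨a0, Finset.mem_univ _, by rw [heq]; exact hpos'⟩
  linarith

lemma eVal_le {c : ℝ} (h : ∃ t ∈ D.eigs, t ≤ c) : D.eVal ≤ c := by
  obtain ⟨t, ht, htc⟩ := h
  have hfin : {t | t ∈ D.eigs}.Finite := by
    have := (D.eigs.toFinset).finite_toSet
    refine this.subset ?_
    intro s hs
    simpa using hs
  exact (csInf_le hfin.bddBelow ht).trans htc

lemma le_eVal (hk : 0 < k) (hv : 1 < v) {c : ℝ}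
    (h : ∀ x : Fin v → ℝ, c * (x ⬝ᵥ x) ≤ x ⬝ᵥ (D.M *ᵥ x)) : c ≤ D.eVal := by
  have hv0 : 0 < v := by omega
  have hne : {t | t ∈ D.eigs}.Nonempty := by
    have hcard : Multiset.card D.M.charpoly.roots = v := by
      rw [D.M_herm.roots_charpoly_eq_eigenvalues]; simp
    rw [roots_M D hv0 hk, Multiset.card_cons] at hcard
    have : 0 < Multiset.card D.eigs := by omega
    exact Multiset.card_pos_iff_exists_mem.mp this
  refine le_csInf hne ?_
  intro t ht
  refine mem_roots_ge D.M_herm h ?_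
  rw [roots_M D hv0 hk]
  exact Multiset.mem_cons_of_mem ht

end Design



section acomp
variable (N : Fin 10 → Fin 4 → ℝ) (R : Fin 10 → ℝ)

/-- the completed-square lower bound for one contrast -/
lemma contrast_bound (hR1 : ∀ i, 1 ≤ R i) (x : Fin 10 → ℝ)
    (d : Fin 4 → ℝ) (hd : ∀ B, d B = ∑ l, x l * (N l B / R l))
    (q : Fin 10 → ℝ) (hq : ∀ l, q l = ∑ B, (N l B / R l) * d B)
    (f : Fin 10 → ℝ) (hf : ∀ l, f l = x l / R l + 1 / 2 * q l) :
    ∑ l, x l ^ 2 / R l + 1 / 4 * ∑ l, R l * q l ^ 2 ≤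
      2 * ∑ l, x l * f l - (∑ l, R l * f l ^ 2 - (4:ℝ)⁻¹ * ∑ B, (∑ l, N l B * f l) ^ 2) := by
  have hR0 : ∀ i, R i ≠ 0 := fun i => by have := hR1 i; positivity
  -- h_B
  set h : Fin 4 → ℝ := fun B => ∑ l, N l B * q l with hh
  have e1 : ∑ l, x l * q l = ∑ B, d B ^ 2 := by
    have : ∀ l, x l * q l = ∑ B, (x l * (N l B / R l)) * d B := by
      intro l; rw [hq, Finset.mul_sum]; exact Finset.sum_congr rfl fun B _ => by ring
    rw [Finset.sum_congr rfl fun l _ => this l, Finset.sum_comm]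
    refine Finset.sum_congr rfl fun B _ => ?_
    rw [← Finset.sum_mul, ← hd]; ring
  have e2 : ∀ B, ∑ l, N l B * f l = d B + 1 / 2 * h B := by
    intro B
    rw [hd, hh, Finset.mul_sum, ← Finset.sum_add_distrib]
    refine Finset.sum_congr rfl fun l _ => ?_
    rw [hf]; ring
  have e3 : ∑ B, d B * h B = ∑ l, R l * q l ^ 2 := by
    have : ∀ B, d B * h B = ∑ l, N l B * d B * q l := by
      intro B; rw [hh, Finset.mul_sum]; exact Finset.sum_congr rfl fun l _ => by ring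
    rw [Finset.sum_congr rfl fun B _ => this B, Finset.sum_comm]
    refine Finset.sum_congr rfl fun l _ => ?_
    rw [← Finset.sum_mul]
    have h2 : ∑ B, N l B * d B = R l * q l := by
      rw [hq, Finset.mul_sum]
      refine Finset.sum_congr rfl fun B _ => ?_
      have := hR0 l
      field_simp
    rw [h2]; ring
  have e4 : ∑ l, x l * f l = ∑ l, x l ^ 2 / R l + 1 / 2 * ∑ B, d B ^ 2 := by
    rw [← e1, Finset.mul_sum, ← Finset.sum_add_distrib]
    refine Finset.sum_congr rfl fun l _ => ?_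
    rw [hf]; ring
  have e5 : ∑ l, R l * f l ^ 2 = ∑ l, x l ^ 2 / R l + ∑ B, d B ^ 2 + 1 / 4 * ∑ l, R l * q l ^ 2 := by
    rw [← e1, Finset.mul_sum, ← Finset.sum_add_distrib, ← Finset.sum_add_distrib]
    refine Finset.sum_congr rfl fun l _ => ?_
    rw [hf]
    have := hR0 l
    field_simp
    ring
  have e6 : ∑ B, (∑ l, N l B * f l) ^ 2 = ∑ B, (d B - 1 / 2 * h B) ^ 2 + 2 * ∑ l, R l * q l ^ 2 := by
    rw [← e3, Finset.mul_sum, ← Finset.sum_add_distrib]
    refine Finset.sum_congr rfl fun B _ => ?_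
    rw [e2]; ring
  have e7 : 0 ≤ ∑ B, (d B - 1 / 2 * h B) ^ 2 := Finset.sum_nonneg fun B _ => sq_nonneg _
  rw [e4, e5, e6]
  linarith

end acomp



section acomp
variable (N : Fin 10 → Fin 4 → ℝ) (R : Fin 10 → ℝ)

/-- `H ≤ 4` as quadratic forms -/
lemma H_le (hN0 : ∀ i B, 0 ≤ N i B) (hR : ∀ i, R i = ∑ B, N i B) (hR1 : ∀ i, 1 ≤ R i)
    (hcol : ∀ B, ∑ i, N i B = 4) (w : Fin 4 → ℝ) :
    ∑ l, R l * (∑ B, N l B / R l * w B) ^ 2 ≤ 4 * ∑ B, w B ^ 2 := by
  have hR0 : ∀ i, 0 < R i := fun i => by have := hR1 i; linarith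
  have h1 : ∀ l, R l * (∑ B, N l B / R l * w B) ^ 2 ≤ ∑ B, N l B * w B ^ 2 := by
    intro l
    have hcs : (∑ B, N l B * w B) ^ 2 ≤ (∑ B, N l B) * ∑ B, N l B * w B ^ 2 := by
      apply Finset.sum_sq_le_sum_mul_sum_of_sq_le_mul
      · intro B _; exact hN0 l B
      · intro B _; have := hN0 l B; positivity
      · intro B _; exact le_of_eq (by ring)
    have e : ∑ B, N l B / R l * w B = (∑ B, N l B * w B) / R l := by
      rw [Finset.sum_div]; exact Finset.sum_congr rfl fun B _ => by ring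
    rw [e, div_pow]
    rw [← hR] at hcs
    have := hR0 l
    rw [mul_div_assoc', div_le_iff₀ (by positivity)]
    nlinarith [hcs]
  calc ∑ l, R l * (∑ B, N l B / R l * w B) ^ 2 ≤ ∑ l, ∑ B, N l B * w B ^ 2 :=
        Finset.sum_le_sum fun l _ => h1 l
    _ = ∑ B, (∑ l, N l B) * w B ^ 2 := by
        rw [Finset.sum_comm]; exact Finset.sum_congr rfl fun B _ => by rw [Finset.sum_mul]
    _ = 4 * ∑ B, w B ^ 2 := by
        rw [Finset.mul_sum]; exact Finset.sum_congr rfl fun B _ => by rw [hcol]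

lemma main_ineq (hN0 : ∀ i B, 0 ≤ N i B) (hNsq : ∀ i B, N i B ≤ N i B ^ 2)
    (hR : ∀ i, R i = ∑ B, N i B) (hR1 : ∀ i, R i = 1 ∨ 2 ≤ R i)
    (hcol : ∀ B, ∑ i, N i B = 4)
    (g : Fin 10 → Fin 10 → ℝ) (hg : ∀ l i, g l i = ∑ B, N l B / R l * (N i B / R i))
    (τ : Fin 10 → ℝ) (hτ : ∀ l, τ l = ∑ i, g l i) :
    171 / 20 ≤ 9 / 10 * ∑ l, 1 / R l + 1 / 4 * ∑ l, R l * (∑ i, g l i ^ 2 - τ l ^ 2 / 10) := by
  have hR1' : ∀ i, 1 ≤ R i := fun i => by rcases hR1 i with h | h <;> linarith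
  have hRpos : ∀ i, 0 < R i := fun i => by have := hR1' i; linarith
  have hR0 : ∀ i, R i ≠ 0 := fun i => (hRpos i).ne'
  have hsumR : ∑ i, R i = 16 := by
    rw [Finset.sum_congr rfl fun i _ => hR i, Finset.sum_comm, Finset.sum_congr rfl fun B _ => hcol B]
    simp; norm_num
  -- normalised rows
  set n : Fin 10 → Fin 4 → ℝ := fun i B => N i B / R i with hn
  have hn1 : ∀ i, ∑ B, n i B = 1 := by
    intro i
    rw [hn]
    simp only
    rw [← Finset.sum_div, ← hR]
    exact div_self (hR0 i)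
  have hRn : ∀ i B, R i * n i B = N i B := by
    intro i B; rw [hn]; have := hR0 i; simp only; field_simp
  have hn0 : ∀ i B, 0 ≤ n i B := fun i B => div_nonneg (hN0 i B) (hRpos i).le
  set σ : Fin 4 → ℝ := fun B => ∑ i, n i B with hσ
  have hσsum : ∑ B, σ B = 10 := by
    rw [hσ]; simp only; rw [Finset.sum_comm, Finset.sum_congr rfl fun i _ => hn1 i]; simp
  have hg' : ∀ l i, g l i = ∑ B, n l B * n i B := hg
  have hτ' : ∀ l, τ l = ∑ B, n l B * σ B := by
    intro l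
    rw [hτ, Finset.sum_congr rfl fun i _ => hg' l i, Finset.sum_comm]
    refine Finset.sum_congr rfl fun B _ => ?_
    rw [hσ, Finset.mul_sum]
  -- the 4x4 matrix
  set H : Fin 4 → Fin 4 → ℝ := fun B B' => ∑ l, R l * n l B * n l B' with hH
  have hHrow : ∀ B, ∑ B', H B B' = 4 := by
    intro B
    rw [hH]; simp only
    rw [Finset.sum_comm, ← hcol B]
    refine Finset.sum_congr rfl fun l _ => ?_
    rw [← Finset.mul_sum, hn1, mul_one, hRn]
  have hHnn : ∀ B B', 0 ≤ H B B' := fun B B' => Finset.sum_nonneg fun l _ =>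
    mul_nonneg (mul_nonneg (hRpos l).le (hn0 l B)) (hn0 l B')
  -- quadratic forms of H
  have quad : ∀ w : Fin 4 → ℝ, ∑ l, R l * (∑ B, n l B * w B) ^ 2 = ∑ B, ∑ B', H B B' * (w B * w B') := by
    intro w
    have : ∀ l, R l * (∑ B, n l B * w B) ^ 2 = ∑ B, ∑ B', R l * n l B * n l B' * (w B * w B') := by
      intro l
      rw [sq, Finset.sum_mul_sum, Finset.mul_sum]
      refine Finset.sum_congr rfl fun B _ => ?_
      rw [Finset.mul_sum]
      exact Finset.sum_congr rfl fun B' _ => by ring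
    rw [Finset.sum_congr rfl fun l _ => this l, Finset.sum_comm]
    refine Finset.sum_congr rfl fun B _ => ?_
    rw [Finset.sum_comm]
    refine Finset.sum_congr rfl fun B' _ => ?_
    rw [hH]; simp only
    rw [Finset.sum_mul]
  -- T
  set T : Fin 10 → ℝ := fun i => ∑ l, R l * g l i ^ 2 - 1 with hT
  have hTquad : ∀ i, T i + 1 = ∑ B, ∑ B', H B B' * (n i B * n i B') := by
    intro i
    rw [← quad, hT]
    simp only [sub_add_cancel]
    exact Finset.sum_congr rfl fun l _ => by rw [hg']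
  -- (1) norm inequality
  set m : Fin 10 → ℝ := fun i => ∑ B, N i B ^ 2 with hm
  have htr : ∑ B, H B B = ∑ i, m i / R i := by
    rw [hH]; simp only
    rw [Finset.sum_comm]
    refine Finset.sum_congr rfl fun l _ => ?_
    rw [hm]; simp only
    rw [Finset.sum_div]
    refine Finset.sum_congr rfl fun B _ => ?_
    rw [hn]; simp only; have := hR0 l; field_simp
  have h1 : ∑ i, R i * T i = ∑ B, ∑ B', H B B' ^ 2 - 16 := by
    have e : ∑ i, R i * (T i + 1) = ∑ B, ∑ B', H B B' ^ 2 := by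
      have : ∀ i, R i * (T i + 1) = ∑ B, ∑ B', H B B' * (R i * n i B * n i B') := by
        intro i
        rw [hTquad, Finset.mul_sum]
        refine Finset.sum_congr rfl fun B _ => ?_
        rw [Finset.mul_sum]
        exact Finset.sum_congr rfl fun B' _ => by ring
      rw [Finset.sum_congr rfl fun i _ => this i, Finset.sum_comm]
      refine Finset.sum_congr rfl fun B _ => ?_
      rw [Finset.sum_comm]
      refine Finset.sum_congr rfl fun B' _ => ?_
      rw [← Finset.mul_sum, sq]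
    have e' : ∑ i, R i * (T i + 1) = ∑ i, R i * T i + 16 := by
      rw [← hsumR, ← Finset.sum_add_distrib]
      exact Finset.sum_congr rfl fun i _ => by ring
    linarith
  have h1' : 4 * (∑ i, m i / R i) - 28 ≤ ∑ i, R i * T i := by
    rw [h1, ← htr]
    have hnn : 0 ≤ ∑ B, ∑ B', (H B B' - (if B = B' then 2 else 0) - 1 / 2) ^ 2 :=
      Finset.sum_nonneg fun B _ => Finset.sum_nonneg fun B' _ => sq_nonneg _
    have e : ∑ B, ∑ B', (H B B' - (if B = B' then 2 else 0) - 1 / 2) ^ 2 =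
        ∑ B, ∑ B', H B B' ^ 2 - 4 * ∑ B, H B B - ∑ B, ∑ B', H B B' + 28 := by
      simp only [Fin.sum_univ_four]
      simp only [Fin.isValue, Fin.reduceEq, if_true, if_false]
      ring
    rw [e] at hnn
    rw [Finset.sum_congr rfl fun B _ => hHrow B] at hnn
    simp at hnn
    linarith
  -- (3)
  have hHle := H_le N R hN0 hR hR1' hcol
  have h3 : ∀ i, T i ≤ 4 * m i / R i ^ 2 - 1 := by
    intro i
    have hle := hHle (fun B => n i B - 1 / 4)
    have e1 : ∀ l, ∑ B, N l B / R l * (n i B - 1 / 4) = g l i - 1 / 4 := by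
      intro l
      have : ∀ B, N l B / R l * (n i B - 1 / 4) = n l B * n i B - 1 / 4 * n l B := by
        intro B; rw [hn]; simp only; ring
      rw [Finset.sum_congr rfl fun B _ => this B, Finset.sum_sub_distrib, ← Finset.mul_sum, hn1, hg']
      ring
    rw [Finset.sum_congr rfl fun l _ => by rw [e1 l]] at hle
    have e2 : ∑ l, R l * g l i = 4 := by
      have : ∀ l, R l * g l i = ∑ B, N l B * n i B := by
        intro l
        rw [hg', Finset.mul_sum]
        exact Finset.sum_congr rfl fun B _ => by rw [← mul_assoc, hRn]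
      rw [Finset.sum_congr rfl fun l _ => this l, Finset.sum_comm]
      have : ∀ B, ∑ l, N l B * n i B = 4 * n i B := by
        intro B; rw [← Finset.sum_mul, hcol]
      rw [Finset.sum_congr rfl fun B _ => this B, ← Finset.mul_sum, hn1, mul_one]
    have e3 : ∑ l, R l * (g l i - 1 / 4) ^ 2 = ∑ l, R l * g l i ^ 2 - 1 / 2 * ∑ l, R l * g l i + 1 / 16 * ∑ l, R l := by
      rw [Finset.mul_sum, Finset.mul_sum, ← Finset.sum_sub_distrib, ← Finset.sum_add_distrib]
      exact Finset.sum_congr rfl fun l _ => by ring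
    rw [e3, e2, hsumR] at hle
    have e4 : ∑ B, (n i B - 1 / 4) ^ 2 = m i / R i ^ 2 - 1 / 4 := by
      have : ∀ B, (n i B - 1 / 4) ^ 2 = N i B ^ 2 / R i ^ 2 - 1 / 2 * n i B + 1 / 16 := by
        intro B; rw [hn]; simp only; ring
      rw [Finset.sum_congr rfl fun B _ => this B, Finset.sum_add_distrib, Finset.sum_sub_distrib,
        ← Finset.mul_sum, hn1, ← Finset.sum_div, hm]
      simp; ring
    rw [e4] at hle
    rw [hT]; simp only
    have e5 : 4 * m i / R i ^ 2 = 4 * (m i / R i ^ 2) := by ring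
    rw [e5]
    linarith
  -- (2)
  have h2 : ∀ i, R i = 1 → ∑ B, N i B * (σ B - 1) ≤ T i := by
    intro i hi
    have hnN : ∀ B, n i B = N i B := by intro B; rw [hn]; simp [hi]
    have e0 : ∑ B, N i B * (σ B - 1) = ∑ B, N i B * σ B - 1 := by
      have : ∑ B, N i B = 1 := by rw [← hR, hi]
      simp only [mul_sub, mul_one, Finset.sum_sub_distrib, this]
    rw [e0]
    have hσH : ∀ B, σ B ≤ H B B := by
      intro B
      rw [hσ, hH]; simp only
      refine Finset.sum_le_sum fun l _ => ?_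
      have h5 := hNsq l B
      have h6 := hRpos l
      rw [hn]; simp only
      have : R l * (N l B / R l) * (N l B / R l) = N l B ^ 2 / R l := by
        have := hR0 l; field_simp
      rw [this]
      exact div_le_div_of_nonneg_right h5 h6.le
    have e1 : ∑ B, N i B * σ B ≤ T i + 1 := by
      rw [hTquad]
      refine Finset.sum_le_sum fun B _ => ?_
      have h7 : H B B * (n i B * n i B) ≤ ∑ B', H B B' * (n i B * n i B') :=
        Finset.single_le_sum (f := fun B' => H B B' * (n i B * n i B'))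
          (fun B' _ => mul_nonneg (hHnn B B') (mul_nonneg (hn0 i B) (hn0 i B'))) (Finset.mem_univ B)
      refine le_trans ?_ h7
      rw [hnN]
      have h8 := hσH B
      have h9 := hNsq i B
      have h10 := hN0 i B
      have h11 : 0 ≤ H B B := hHnn B B
      calc N i B * σ B ≤ N i B * H B B := mul_le_mul_of_nonneg_left h8 h10
        _ ≤ N i B ^ 2 * H B B := mul_le_mul_of_nonneg_right h9 h11
        _ = H B B * (N i B * N i B) := by ring
    linarith
  -- (5)
  have h5 : ∑ l, R l * τ l ^ 2 - 100 ≤ 4 * ∑ B, (σ B - 5 / 2) ^ 2 := by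
    have hle := hHle (fun B => σ B - 5 / 2)
    have e1 : ∀ l, ∑ B, N l B / R l * (σ B - 5 / 2) = τ l - 5 / 2 := by
      intro l
      have : ∀ B, N l B / R l * (σ B - 5 / 2) = n l B * σ B - 5 / 2 * n l B := by
        intro B; rw [hn]; simp only; ring
      rw [Finset.sum_congr rfl fun B _ => this B, Finset.sum_sub_distrib, ← Finset.mul_sum, hn1, hτ']
      ring
    rw [Finset.sum_congr rfl fun l _ => by rw [e1 l]] at hle
    have e2 : ∑ l, R l * τ l = 40 := by
      have : ∀ l, R l * τ l = ∑ B, N l B * σ B := by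
        intro l
        rw [hτ', Finset.mul_sum]
        exact Finset.sum_congr rfl fun B _ => by rw [← mul_assoc, hRn]
      rw [Finset.sum_congr rfl fun l _ => this l, Finset.sum_comm]
      have : ∀ B, ∑ l, N l B * σ B = 4 * σ B := by
        intro B; rw [← Finset.sum_mul, hcol]
      rw [Finset.sum_congr rfl fun B _ => this B, ← Finset.mul_sum, hσsum]
      norm_num
    have e3 : ∑ l, R l * (τ l - 5 / 2) ^ 2 = ∑ l, R l * τ l ^ 2 - 5 * ∑ l, R l * τ l + 25 / 4 * ∑ l, R l := by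
      rw [Finset.mul_sum, Finset.mul_sum, ← Finset.sum_sub_distrib, ← Finset.sum_add_distrib]
      exact Finset.sum_congr rfl fun l _ => by ring
    rw [e3, e2, hsumR] at hle
    linarith
  -- combination
  classical
  set ε : Fin 10 → ℝ := fun i => if R i = 1 then 1 else 0 with hε
  set s : Fin 4 → ℝ := fun B => ∑ i, ε i * N i B with hs
  have hTlow : ∀ i, (1 - R i / 2) * T i ≥ 1 / 2 * (ε i * ∑ B, N i B * (σ B - 1)) +
      (1 - ε i) * ((1 - R i / 2) * (4 * m i / R i ^ 2 - 1)) := by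
    intro i
    rcases hR1 i with hi | hi
    · have : ε i = 1 := by rw [hε]; simp [hi]
      rw [this, hi]
      have := h2 i hi
      linarith
    · have : ε i = 0 := by
        rw [hε]; simp only; rw [if_neg]; intro h; linarith
      rw [this]
      have h := h3 i
      have h' : 1 - R i / 2 ≤ 0 := by linarith
      have := mul_le_mul_of_nonpos_left h h'
      linarith
  have hTsum : ∑ i, T i ≥ 1 / 2 * (4 * (∑ i, m i / R i) - 28) + 1 / 2 * ∑ B, s B * (σ B - 1) +
      ∑ i, (1 - ε i) * ((1 - R i / 2) * (4 * m i / R i ^ 2 - 1)) := by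
    have e1 : ∑ i, T i = 1 / 2 * ∑ i, R i * T i + ∑ i, (1 - R i / 2) * T i := by
      rw [Finset.mul_sum, ← Finset.sum_add_distrib]
      exact Finset.sum_congr rfl fun i _ => by ring
    have e2 : ∑ B, s B * (σ B - 1) = ∑ i, ε i * ∑ B, N i B * (σ B - 1) := by
      rw [hs]; simp only
      have : ∀ B, (∑ i, ε i * N i B) * (σ B - 1) = ∑ i, ε i * (N i B * (σ B - 1)) := by
        intro B; rw [Finset.sum_mul]; exact Finset.sum_congr rfl fun i _ => by ring
      rw [Finset.sum_congr rfl fun B _ => this B, Finset.sum_comm]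
      exact Finset.sum_congr rfl fun i _ => by rw [Finset.mul_sum]
    have e3 : ∑ i, (1 - R i / 2) * T i ≥ ∑ i, (1 / 2 * (ε i * ∑ B, N i B * (σ B - 1)) +
      (1 - ε i) * ((1 - R i / 2) * (4 * m i / R i ^ 2 - 1))) := Finset.sum_le_sum fun i _ => hTlow i
    rw [Finset.sum_add_distrib, ← Finset.mul_sum, ← e2] at e3
    rw [e1]
    linarith
  have hε0 : ∀ i, 0 ≤ ε i := by intro i; rw [hε]; simp only; split_ifs <;> norm_num
  have hblock : ∀ B, 5 / 2 * (s B * (σ B - 1)) - 2 * (σ B - 5 / 2) ^ 2 ≥ 2 * s B - 53 / 4 + 6 * σ B := by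
    intro B
    have hs0 : 0 ≤ s B := Finset.sum_nonneg fun i _ => mul_nonneg (hε0 i) (hN0 i B)
    have hs1 : s B ≤ σ B := by
      rw [hs, hσ]; simp only
      refine Finset.sum_le_sum fun i _ => ?_
      rcases hR1 i with hi | hi
      · rw [hε, hn]; simp [hi]
      · have : ε i = 0 := by
          rw [hε]; simp only; rw [if_neg]; intro h; linarith
        rw [this, zero_mul]; exact hn0 i B
    have hs2 : σ B ≤ 2 + 1 / 2 * s B := by
      have hsum : 2 + 1 / 2 * s B = ∑ i, (1 / 2 * N i B + 1 / 2 * (ε i * N i B)) := by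
        rw [Finset.sum_add_distrib, ← Finset.mul_sum, ← Finset.mul_sum, hcol]; norm_num; rfl
      rw [hsum, hσ]; simp only
      refine Finset.sum_le_sum fun i _ => ?_
      rcases hR1 i with hi | hi
      · rw [hε, hn]; simp only [hi, if_true]; linarith
      · have : ε i = 0 := by
          rw [hε]; simp only; rw [if_neg]; intro h; linarith
        rw [this, hn]; simp only
        rw [div_le_iff₀ (hRpos i)]
        nlinarith [hN0 i B]
    nlinarith [sq_nonneg (s B - 1), mul_nonneg (sub_nonneg.2 hs2) (sub_nonneg.2 hs1),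
      mul_nonneg (sub_nonneg.2 hs2) hs0]
  have hblocksum : 5 / 2 * ∑ B, s B * (σ B - 1) - 2 * ∑ B, (σ B - 5 / 2) ^ 2 ≥ 2 * ∑ i, ε i + 7 := by
    have e1 : ∑ B, (5 / 2 * (s B * (σ B - 1)) - 2 * (σ B - 5 / 2) ^ 2) ≥ ∑ B, (2 * s B - 53 / 4 + 6 * σ B) :=
      Finset.sum_le_sum fun B _ => hblock B
    have e2 : ∑ B, s B = ∑ i, ε i := by
      rw [hs]; simp only
      rw [Finset.sum_comm]
      refine Finset.sum_congr rfl fun i _ => ?_
      rw [← Finset.mul_sum, ← hR]
      rw [hε]; simp only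
      split_ifs with h
      · rw [h]; norm_num
      · simp
    rw [Finset.sum_sub_distrib, ← Finset.mul_sum, ← Finset.mul_sum, Finset.sum_add_distrib,
      Finset.sum_sub_distrib, ← Finset.mul_sum, ← Finset.mul_sum, e2, hσsum] at e1
    simp at e1
    linarith
  -- pointwise
  have hpt : ∀ i, 41 - 11 * R i ≤ 18 * (1 / R i) + 10 * (m i / R i) + 2 * ε i +
      5 * ((1 - ε i) * ((1 - R i / 2) * (4 * m i / R i ^ 2 - 1))) := by
    intro i
    have hmR : R i ≤ m i := by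
      rw [hR, hm]; exact Finset.sum_le_sum fun B _ => hNsq i B
    rcases hR1 i with hi | hi
    · have : ε i = 1 := by rw [hε]; simp [hi]
      rw [this, hi]
      rw [hi] at hmR
      linarith
    · have : ε i = 0 := by
        rw [hε]; simp only; rw [if_neg]; intro h; linarith
      rw [this]
      have hp := hRpos i
      have e1 : 18 * (1 / R i) + 10 * (m i / R i) + 2 * 0 +
          5 * ((1 - 0) * ((1 - R i / 2) * (4 * m i / R i ^ 2 - 1))) =
          18 / R i + 20 * (m i / R i ^ 2) - 5 + 5 / 2 * R i := by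
        field_simp
        ring
      rw [e1]
      have e2 : 1 / R i ≤ m i / R i ^ 2 := by
        rw [div_le_div_iff₀ hp (by positivity)]
        nlinarith
      have e3 : 46 - 27 / 2 * R i ≤ 38 / R i := by
        rw [le_div_iff₀ hp]
        nlinarith [mul_nonneg (sub_nonneg.2 hi) (by linarith : (0:ℝ) ≤ 27 / 2 * R i - 19)]
      have e4 : 38 / R i = 18 / R i + 20 * (1 / R i) := by ring
      linarith
  have hptsum : 234 ≤ 18 * ∑ i, 1 / R i + 10 * ∑ i, m i / R i + 2 * ∑ i, ε i +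
      5 * ∑ i, (1 - ε i) * ((1 - R i / 2) * (4 * m i / R i ^ 2 - 1)) := by
    have e1 : ∑ i, (41 - 11 * R i) ≤ ∑ i, (18 * (1 / R i) + 10 * (m i / R i) + 2 * ε i +
      5 * ((1 - ε i) * ((1 - R i / 2) * (4 * m i / R i ^ 2 - 1)))) := Finset.sum_le_sum fun i _ => hpt i
    rw [Finset.sum_sub_distrib, ← Finset.mul_sum, hsumR] at e1
    simp only [Finset.sum_add_distrib, ← Finset.mul_sum] at e1
    simp at e1 ⊢
    linarith
  have hfin : ∑ l, R l * (∑ i, g l i ^ 2 - τ l ^ 2 / 10) = ∑ i, T i + 10 - 1 / 10 * ∑ l, R l * τ l ^ 2 := by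
    have e1 : ∑ i, T i + 10 = ∑ l, R l * ∑ i, g l i ^ 2 := by
      have : ∑ i, T i + 10 = ∑ i, (T i + 1) := by rw [Finset.sum_add_distrib]; simp
      rw [this, hT]
      simp only [sub_add_cancel]
      rw [Finset.sum_comm]
      exact Finset.sum_congr rfl fun l _ => by rw [Finset.mul_sum]
    rw [e1, Finset.mul_sum, ← Finset.sum_sub_distrib]
    exact Finset.sum_congr rfl fun l _ => by ring
  rw [hfin]
  linarith

end acomp



section dcomp

lemma prod_le_sixteenth {a b c d : ℝ} (ha : 0 ≤ a) (hb : 0 ≤ b) (hc : 0 ≤ c) (hd : 0 ≤ d)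
    (h : a + b + c + d ≤ 2) : a * b * c * d ≤ 1 / 16 := by
  have h1 : a * b ≤ (a + b) ^ 2 / 4 := by nlinarith [sq_nonneg (a - b)]
  have h2 : c * d ≤ (c + d) ^ 2 / 4 := by nlinarith [sq_nonneg (c - d)]
  have h3 : (a + b) * (c + d) ≤ 1 := by nlinarith [sq_nonneg (a + b - (c + d))]
  have h4 : 0 ≤ (a + b) * (c + d) := by positivity
  calc a * b * c * d = (a * b) * (c * d) := by ring
    _ ≤ ((a + b) ^ 2 / 4) * ((c + d) ^ 2 / 4) :=
        mul_le_mul h1 h2 (mul_nonneg hc hd) (by positivity)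
    _ = ((a + b) * (c + d)) ^ 2 / 16 := by ring
    _ ≤ 1 / 16 := by
        have : ((a + b) * (c + d)) ^ 2 ≤ 1 := by nlinarith
        linarith

lemma det_le_of_trace {K : Matrix (Fin 4) (Fin 4) ℝ} (hK : K.PosSemidef) (ht : K.trace ≤ 2) :
    K.det ≤ 1 / 16 := by
  rw [hK.isHermitian.det_eq_prod_eigenvalues]
  rw [hK.isHermitian.trace_eq_sum_eigenvalues] at ht
  have h0 := hK.eigenvalues_nonneg
  simp only [Fin.prod_univ_four, Fin.sum_univ_four, RCLike.ofReal_real_eq_id, id] at *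
  exact prod_le_sixteenth (h0 0) (h0 1) (h0 2) (h0 3) ht

/-- bordering formula -/
lemma det_border {C : Matrix (Fin 10) (Fin 10) ℝ} (hC : C *ᵥ (fun _ => 1) = 0) (hCs : Cᵀ = C)
    (x z : Fin 10 → ℝ) :
    det (C + vecMulVec x z) = (∑ i, x i) / 10 * (∑ i, z i) *
      det (C + Matrix.of fun _ _ : Fin 10 => (10:ℝ)⁻¹) := by
  have hrow : ∀ i, ∑ j, C i j = 0 := by
    intro i
    have := congrFun hC i
    simpa [Matrix.mulVec, dotProduct] using this
  have hcol : ∀ j, ∑ i, C i j = 0 := by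
    intro j
    rw [← hrow j]
    exact Finset.sum_congr rfl fun i _ => by conv_lhs => rw [← hCs, Matrix.transpose_apply]
  set M : Matrix (Fin 10) (Fin 10) ℝ := C + Matrix.of fun _ _ : Fin 10 => (10:ℝ)⁻¹ with hM
  set P1 : Matrix (Fin 10) (Fin 10) ℝ := 1 + replicateCol Unit (fun i => (x i - 1) / 10) *
    replicateRow Unit (fun _ : Fin 10 => (1:ℝ)) with hP1
  set P2 : Matrix (Fin 10) (Fin 10) ℝ := 1 + replicateCol Unit (fun _ : Fin 10 => (1:ℝ)) *
    replicateRow Unit (fun i => z i - 1 / 10) with hP2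
  have hd1 : P1.det = (∑ i, x i) / 10 := by
    rw [hP1, Matrix.det_one_add_replicateCol_mul_replicateRow]
    simp only [dotProduct, one_mul]
    rw [← Finset.sum_div, Finset.sum_sub_distrib]
    simp
    ring
  have hd2 : P2.det = ∑ i, z i := by
    rw [hP2, Matrix.det_one_add_replicateCol_mul_replicateRow]
    simp only [dotProduct, mul_one]
    rw [Finset.sum_sub_distrib]
    simp
  have hmulP2 : M * P2 = C + vecMulVec (fun _ => 1) z := by
    ext i j
    rw [hP2, Matrix.mul_add, Matrix.mul_one]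
    simp only [Matrix.add_apply, Matrix.mul_apply, hM, Matrix.of_apply, replicateCol_apply,
      replicateRow_apply, vecMulVec_apply, Finset.univ_unique, Finset.sum_singleton, one_mul]
    rw [← Finset.sum_mul, Finset.sum_add_distrib, hrow]
    simp
  have hmulP1 : P1 * (C + vecMulVec (fun _ => 1) z) = C + vecMulVec x z := by
    ext i j
    rw [hP1, Matrix.add_mul, Matrix.one_mul]
    simp only [Matrix.add_apply, Matrix.mul_apply, replicateCol_apply,
      replicateRow_apply, vecMulVec_apply, Finset.univ_unique, Finset.sum_singleton, one_mul, mul_one]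
    rw [← Finset.mul_sum, Finset.sum_add_distrib, hcol]
    simp
    ring
  rw [← hmulP1, ← hmulP2, Matrix.det_mul, Matrix.det_mul, hd1, hd2]
  ring

end dcomp




namespace Design

section ten
variable (D : Design 10 4 4)

/-- the `4 × 4` companion matrix `1 - H/4 + J/8`, `H = Nᵀ R⁻¹ N` -/
noncomputable def K : Matrix (Fin 4) (Fin 4) ℝ :=
  Matrix.of fun B B' => (if B = B' then 1 else 0) -
    1 / 4 * (∑ l, (D.mult l B : ℝ) * (D.mult l B' : ℝ) / (D.rep l : ℝ)) + 1 / 8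

lemma sum_rep : ∑ i, D.rep i = 16 := by
  unfold rep
  rw [Finset.sum_comm, Finset.sum_congr rfl fun B _ => D.sum_mult B]
  simp

lemma sum_repR : ∑ i, (D.rep i : ℝ) = 16 := by
  exact_mod_cast D.sum_rep

lemma det_M_formula (hr : ∀ i, 1 ≤ D.rep i) :
    D.M.det = 5 / 4 * (∏ i, (D.rep i : ℝ)) * D.K.det := by
  have hR0 : ∀ i, (D.rep i : ℝ) ≠ 0 := fun i => by have := hr i; positivity
  have hb := det_border (D.info_one (by norm_num)) D.info_symm (fun i => (D.rep i : ℝ))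
    (fun i => (D.rep i : ℝ) / 32)
  rw [← Finset.sum_div, D.sum_repR] at hb
  have hM : D.info + Matrix.of (fun _ _ : Fin 10 => (10:ℝ)⁻¹) = D.M := by
    unfold M
    congr 1
  rw [hM] at hb
  set W : Matrix (Fin 4) (Fin 4) ℝ := Matrix.of fun B B' => (if B = B' then 1 / 4 else 0) - 1 / 32 with hW
  have hfac : D.info + vecMulVec (fun i => (D.rep i : ℝ)) (fun i => (D.rep i : ℝ) / 32) =
      diagonal (fun i => (D.rep i : ℝ)) *
        (1 - (diagonal (fun i => ((D.rep i : ℝ))⁻¹) * D.inc) * (W * D.incᵀ)) := by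
    rw [Matrix.mul_sub, Matrix.mul_one]
    have e1 : diagonal (fun i => (D.rep i : ℝ)) *
        (diagonal (fun i => ((D.rep i : ℝ))⁻¹) * D.inc * (W * D.incᵀ)) = D.inc * (W * D.incᵀ) := by
      rw [Matrix.mul_assoc, ← Matrix.mul_assoc, Matrix.diagonal_mul_diagonal]
      have : (fun i => (D.rep i : ℝ) * ((D.rep i : ℝ))⁻¹) = fun _ => (1:ℝ) := by
        funext i; exact mul_inv_cancel₀ (hR0 i)
      rw [this, Matrix.diagonal_one, Matrix.one_mul]
    rw [e1]
    unfold info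
    have e2 : D.inc * (W * D.incᵀ) = ((4:ℕ) : ℝ)⁻¹ • (D.inc * D.incᵀ) -
        vecMulVec (fun i => (D.rep i : ℝ)) (fun i => (D.rep i : ℝ) / 32) := by
      ext i j
      simp only [Matrix.mul_apply, Matrix.sub_apply, Matrix.smul_apply, vecMulVec_apply,
        Matrix.transpose_apply, inc, Matrix.of_apply, hW, repR, smul_eq_mul]
      simp only [Fin.sum_univ_four, Fin.isValue, Fin.reduceEq, if_true, if_false]
      push_cast
      ring
    rw [e2]
    abel
  rw [hfac, Matrix.det_mul, Matrix.det_diagonal, Matrix.det_one_sub_mul_comm] at hb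
  have hK : 1 - (W * D.incᵀ) * (diagonal (fun i => ((D.rep i : ℝ))⁻¹) * D.inc) = D.K := by
    ext B B'
    have e0 : (W * D.incᵀ) * (diagonal (fun i => ((D.rep i : ℝ))⁻¹) * D.inc) =
        W * (D.incᵀ * (diagonal (fun i => ((D.rep i : ℝ))⁻¹) * D.inc)) := by
      rw [Matrix.mul_assoc]
    have e1 : ∀ B B', (D.incᵀ * (diagonal (fun i => ((D.rep i : ℝ))⁻¹) * D.inc)) B B' =
        ∑ l, (D.mult l B : ℝ) * (D.mult l B' : ℝ) / (D.rep l : ℝ) := by
      intro B B'
      rw [Matrix.mul_apply]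
      refine Finset.sum_congr rfl fun l _ => ?_
      rw [Matrix.diagonal_mul]
      simp only [Matrix.transpose_apply, inc, Matrix.of_apply]
      ring
    have e2 : ∀ B', ∑ B, (D.incᵀ * (diagonal (fun i => ((D.rep i : ℝ))⁻¹) * D.inc)) B B' = 4 := by
      intro B'
      rw [Finset.sum_congr rfl fun B _ => e1 B B', Finset.sum_comm]
      have : ∀ l, ∑ B, (D.mult l B : ℝ) * (D.mult l B' : ℝ) / (D.rep l : ℝ) = (D.mult l B' : ℝ) := by
        intro l
        rw [← Finset.sum_div, ← Finset.sum_mul, ← repR]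
        have := hR0 l
        field_simp
      rw [Finset.sum_congr rfl fun l _ => this l, D.sum_multR]
      norm_num
    rw [e0, Matrix.sub_apply, Matrix.mul_apply]
    have e3 : ∀ x, W B x = (if B = x then 1 / 4 else 0) - 1 / 32 := fun x => rfl
    rw [Finset.sum_congr rfl fun x _ => by rw [e3, sub_mul, ite_mul, zero_mul], Finset.sum_sub_distrib,
      ← Finset.mul_sum, e2, Finset.sum_ite_eq, if_pos (Finset.mem_univ _), e1, Matrix.one_apply]
    unfold K
    rw [Matrix.of_apply]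
    ring
  rw [hK] at hb
  linarith

lemma prod_rep_le (hr : ∀ i, 1 ≤ D.rep i) : (∏ i, (D.rep i : ℝ)) ≤ 64 := by
  have h1 : ∏ i, D.rep i ≤ ∏ i, 2 ^ (D.rep i - 1) := by
    refine Finset.prod_le_prod' fun i _ => ?_
    have := Nat.lt_two_pow_self (n := D.rep i - 1)
    have := hr i
    omega
  rw [Finset.prod_pow_eq_pow_sum] at h1
  have h2 : ∑ i, (D.rep i - 1) = 6 := by
    have h3 : ∑ i, (D.rep i - 1) + 10 = ∑ i, D.rep i := by
      have h4 : ∑ i, (D.rep i - 1) + ∑ _i : Fin 10, 1 = ∑ i, D.rep i := by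
        rw [← Finset.sum_add_distrib]
        exact Finset.sum_congr rfl fun i _ => by have := hr i; omega
      simpa using h4
    rw [D.sum_rep] at h3
    omega
  rw [h2] at h1
  norm_num at h1
  exact_mod_cast h1

lemma K_posSemidef (hr : ∀ i, 1 ≤ D.rep i) : D.K.PosSemidef := by
  have hR1 : ∀ i, (1:ℝ) ≤ D.rep i := fun i => by exact_mod_cast hr i
  refine Matrix.PosSemidef.of_dotProduct_mulVec_nonneg ?_ ?_
  · rw [Matrix.IsHermitian, Matrix.conjTranspose_eq_transpose_of_trivial]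
    ext B B'
    simp only [K, Matrix.transpose_apply, Matrix.of_apply]
    congr 2
    · simp only [eq_comm]
    · congr 1
      exact Finset.sum_congr rfl fun l _ => by ring
  · intro w
    simp only [star_trivial]
    have hle := H_le (fun i B => (D.mult i B : ℝ)) (fun i => (D.rep i : ℝ))
      (fun i B => by positivity) D.repR hR1 (fun B => by rw [D.sum_multR]; norm_num) w
    have e : w ⬝ᵥ (D.K *ᵥ w) = ∑ B, w B ^ 2 -
        1 / 4 * ∑ l, (D.rep l : ℝ) * (∑ B, (D.mult l B : ℝ) / (D.rep l : ℝ) * w B) ^ 2 +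
        1 / 8 * (∑ B, w B) ^ 2 := by
      have e1 : ∀ l, (D.rep l : ℝ) * (∑ B, (D.mult l B : ℝ) / (D.rep l : ℝ) * w B) ^ 2 =
          ∑ B, ∑ B', (D.mult l B : ℝ) * (D.mult l B' : ℝ) / (D.rep l : ℝ) * (w B * w B') := by
        intro l
        have hl : (D.rep l : ℝ) ≠ 0 := by have := hR1 l; positivity
        rw [sq, Finset.sum_mul_sum, Finset.mul_sum]
        refine Finset.sum_congr rfl fun B _ => ?_
        rw [Finset.mul_sum]
        refine Finset.sum_congr rfl fun B' _ => ?_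
        field_simp
      have e2 : ∑ l, (D.rep l : ℝ) * (∑ B, (D.mult l B : ℝ) / (D.rep l : ℝ) * w B) ^ 2 =
          ∑ B, ∑ B', (∑ l, (D.mult l B : ℝ) * (D.mult l B' : ℝ) / (D.rep l : ℝ)) * (w B * w B') := by
        rw [Finset.sum_congr rfl fun l _ => e1 l, Finset.sum_comm]
        refine Finset.sum_congr rfl fun B _ => ?_
        rw [Finset.sum_comm]
        refine Finset.sum_congr rfl fun B' _ => ?_
        rw [Finset.sum_mul]
      rw [e2]
      simp only [dotProduct, Matrix.mulVec, K, Matrix.of_apply]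
      generalize (fun B B' => ∑ l, (D.mult l B : ℝ) * (D.mult l B' : ℝ) / (D.rep l : ℝ)) = h
      simp only [Fin.sum_univ_four]
      simp only [Fin.isValue, Fin.reduceEq, if_true, if_false]
      ring
    rw [e]
    have h1 : 0 ≤ 1 / 8 * (∑ B, w B) ^ 2 := by positivity
    linarith

lemma K_trace (hr : ∀ i, 1 ≤ D.rep i) : D.K.trace ≤ 2 := by
  have h1 : (10:ℝ) ≤ ∑ B, ∑ l, (D.mult l B : ℝ) * (D.mult l B : ℝ) / (D.rep l : ℝ) := by
    rw [Finset.sum_comm]
    have h2 : ∀ l, (1:ℝ) ≤ ∑ B, (D.mult l B : ℝ) * (D.mult l B : ℝ) / (D.rep l : ℝ) := by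
      intro l
      rw [← Finset.sum_div]
      have hl : (0:ℝ) < D.rep l := by have := hr l; positivity
      rw [le_div_iff₀ hl, one_mul, repR]
      refine Finset.sum_le_sum fun B _ => ?_
      have : D.mult l B ≤ D.mult l B * D.mult l B := Nat.le_mul_self _
      exact_mod_cast this
    calc (10:ℝ) = ∑ _l : Fin 10, (1:ℝ) := by simp
      _ ≤ _ := Finset.sum_le_sum fun l _ => h2 l
  have h3 : D.K.trace = 4 - 1 / 4 * ∑ B, ∑ l, (D.mult l B : ℝ) * (D.mult l B : ℝ) / (D.rep l : ℝ) + 1 / 2 := by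
    simp only [Matrix.trace, Matrix.diag_apply, K, Matrix.of_apply, if_true]
    rw [Finset.sum_add_distrib, Finset.sum_sub_distrib, ← Finset.mul_sum]
    simp
    norm_num
  rw [h3]
  linarith

lemma det_M_le (hr : ∀ i, 1 ≤ D.rep i) : D.M.det ≤ 5 := by
  rw [D.det_M_formula hr]
  have h1 := D.prod_rep_le hr
  have h2 := det_le_of_trace (D.K_posSemidef hr) (D.K_trace hr)
  have h3 := (D.K_posSemidef hr).det_nonneg
  have h4 : 0 ≤ (∏ i, (D.rep i : ℝ)) := Finset.prod_nonneg fun i _ => by positivity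
  calc 5 / 4 * (∏ i, (D.rep i : ℝ)) * D.K.det ≤ 5 / 4 * 64 * (1 / 16) := by
        apply mul_le_mul _ h2 h3 (by norm_num)
        linarith
    _ = 5 := by norm_num

end ten

end Design



namespace Design

lemma form_shift {v b k : ℕ} (D : Design v b k) (hk : 0 < k) (x : Fin v → ℝ) (c : ℝ) :
    (fun i => x i - c) ⬝ᵥ (D.info *ᵥ fun i => x i - c) = x ⬝ᵥ (D.info *ᵥ x) := by
  rw [form_eq' D hk, form_eq' D hk]
  congr 1
  refine Finset.sum_congr rfl fun B _ => Finset.sum_congr rfl fun i _ => Finset.sum_congr rfl fun j _ => ?_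
  ring

section ten
variable (D : Design 10 4 4)

lemma sum_repR' : ∑ i, (D.rep i : ℝ) = 16 := by
  have : ∑ i, D.rep i = 16 := by
    unfold rep
    rw [Finset.sum_comm, Finset.sum_congr rfl fun B _ => D.sum_mult B]
    simp
  exact_mod_cast this

lemma rep_le_seven (hr : ∀ i, 1 ≤ D.rep i) (i : Fin 10) : D.rep i ≤ 7 := by
  have h1 : ∑ j, D.rep j = 16 := by exact_mod_cast D.sum_repR'
  rw [← Finset.add_sum_erase _ _ (Finset.mem_univ i)] at h1
  have h2 : ∑ j ∈ Finset.univ.erase i, 1 ≤ ∑ j ∈ Finset.univ.erase i, D.rep j :=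
    Finset.sum_le_sum fun j _ => hr j
  have h3 : ∑ j ∈ Finset.univ.erase i, 1 = 9 := by
    rw [Finset.sum_const, Finset.card_erase_of_mem (Finset.mem_univ i)]; simp
  omega

/-- indicator of singly replicated treatments -/
noncomputable def eps (i : Fin 10) : ℝ := if D.rep i = 1 then 1 else 0

lemma mult_le_rep (i : Fin 10) (B : Fin 4) : D.mult i B ≤ D.rep i :=
  Finset.single_le_sum (f := fun B => D.mult i B) (fun _ _ => Nat.zero_le _) (Finset.mem_univ B)

lemma eps_mul_sq (i : Fin 10) (B : Fin 4) :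
    D.eps i * (D.mult i B : ℝ) ^ 2 = D.eps i * (D.mult i B : ℝ) := by
  unfold eps
  split_ifs with h
  · have h1 := D.mult_le_rep i B
    rw [h] at h1
    have h2 : D.mult i B = 0 ∨ D.mult i B = 1 := by omega
    rcases h2 with h2 | h2 <;> simp [h2]
  · simp

lemma eps_cases (i : Fin 10) : D.eps i = 0 ∨ D.eps i = 1 := by
  unfold eps; split_ifs <;> simp

/-- many single treatments in one block: small eigenvalue -/
lemma eig_case1 (hr : ∀ i, 1 ≤ D.rep i) (B : Fin 4)
    (hB : 2 ≤ ∑ i, if D.rep i = 1 then D.mult i B else 0) : ∃ t ∈ D.eigs, t ≤ 3 / 5 := by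
  set w : Fin 10 → ℝ := fun i => D.eps i + (1 - D.eps i) / 16 with hw
  set x : Fin 10 → ℝ := fun i => w i * (D.mult i B : ℝ) with hx
  set s : ℝ := ∑ i, D.eps i * (D.mult i B : ℝ) with hs
  set a : ℝ := ∑ i, (1 - D.eps i) * (D.mult i B : ℝ) with ha
  set q : ℝ := ∑ i, (1 - D.eps i) * (D.mult i B : ℝ) ^ 2 with hq
  have hsa : s + a = 4 := by
    rw [hs, ha, ← Finset.sum_add_distrib]
    rw [Finset.sum_congr rfl fun i _ => by
      rw [show D.eps i * (D.mult i B : ℝ) + (1 - D.eps i) * (D.mult i B : ℝ) = (D.mult i B : ℝ) by ring]]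
    rw [D.sum_multR]; norm_num
  have hsn : s = ((∑ i, if D.rep i = 1 then D.mult i B else 0 : ℕ) : ℝ) := by
    rw [hs]; push_cast
    refine Finset.sum_congr rfl fun i _ => ?_
    unfold eps
    split_ifs <;> simp
  have hs4 : (∑ i, if D.rep i = 1 then D.mult i B else 0) ≤ 4 := by
    refine le_trans (Finset.sum_le_sum fun i _ => ?_) (D.sum_mult B).le
    split_ifs
    · exact le_refl _
    · exact Nat.zero_le _
  have he0 : ∀ i, 0 ≤ 1 - D.eps i := by
    intro i; rcases D.eps_cases i with h | h <;> rw [h] <;> norm_num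
  have hqa : a ≤ q := by
    refine Finset.sum_le_sum fun i _ => mul_le_mul_of_nonneg_left ?_ (he0 i)
    have : D.mult i B ≤ D.mult i B ^ 2 := Nat.le_self_pow (by norm_num) _
    exact_mod_cast this
  have hqa2 : q ≤ a ^ 2 := by
    have h1 : q = ∑ i, ((1 - D.eps i) * (D.mult i B : ℝ)) ^ 2 := by
      rw [hq]
      refine Finset.sum_congr rfl fun i _ => ?_
      rcases D.eps_cases i with h | h <;> rw [h] <;> ring
    rw [h1, ha]
    exact Finset.sum_sq_le_sq_sum_of_nonneg fun i _ => mul_nonneg (he0 i) (by positivity)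
  have hsum : ∑ i, x i = s + a / 16 := by
    rw [hs, ha, Finset.sum_div, ← Finset.sum_add_distrib]
    exact Finset.sum_congr rfl fun i _ => by rw [hx, hw]; ring
  have hsq : ∑ i, x i ^ 2 = s + q / 256 := by
    rw [hs, hq, Finset.sum_div, ← Finset.sum_add_distrib]
    refine Finset.sum_congr rfl fun i _ => ?_
    rw [← eps_mul_sq, hx, hw]
    rcases D.eps_cases i with h | h <;> simp only [h] <;> ring
  have hNx : ∑ i, (D.mult i B : ℝ) * x i = s + q / 16 := by
    rw [hs, hq, Finset.sum_div, ← Finset.sum_add_distrib]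
    refine Finset.sum_congr rfl fun i _ => ?_
    rw [← eps_mul_sq, hx, hw]
    ring
  have hRx : ∑ i, (D.rep i : ℝ) * x i ^ 2 ≤ s + 7 * q / 256 := by
    rw [hs, hq, Finset.mul_sum, Finset.sum_div, ← Finset.sum_add_distrib]
    refine Finset.sum_le_sum fun i _ => ?_
    rw [← eps_mul_sq, hx, hw]
    have h7 : (D.rep i : ℝ) ≤ 7 := by exact_mod_cast D.rep_le_seven hr i
    by_cases h : D.rep i = 1
    · have : D.eps i = 1 := by unfold eps; rw [if_pos h]
      simp only [this, h]; push_cast; apply le_of_eq; ring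
    · have : D.eps i = 0 := by unfold eps; rw [if_neg h]
      simp only [this]
      nlinarith [sq_nonneg (D.mult i B : ℝ), mul_nonneg (sub_nonneg.2 h7) (sq_nonneg (D.mult i B : ℝ))]
  have hform : x ⬝ᵥ (D.info *ᵥ x) ≤ s + 7 * q / 256 - 1 / 4 * (s + q / 16) ^ 2 := by
    rw [form_eq]
    have h1 : (s + q / 16) ^ 2 ≤ ∑ B', (∑ i, (D.mult i B' : ℝ) * x i) ^ 2 := by
      rw [← hNx]
      exact Finset.single_le_sum (f := fun B' => (∑ i, (D.mult i B' : ℝ) * x i) ^ 2)
        (fun _ _ => sq_nonneg _) (Finset.mem_univ B)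
    push_cast
    linarith
  -- the numerical inequality
  have hnum : s + 7 * q / 256 - 1 / 4 * (s + q / 16) ^ 2 ≤
      3 / 5 * (s + q / 256 - 1 / 10 * (s + a / 16) ^ 2) := by
    have hcases : (∑ i, if D.rep i = 1 then D.mult i B else 0) = 2 ∨
      (∑ i, if D.rep i = 1 then D.mult i B else 0) = 3 ∨
      (∑ i, if D.rep i = 1 then D.mult i B else 0) = 4 := by omega
    rcases hcases with h | h | h
    · rw [h] at hsn
      have ha' : a = 2 := by rw [hsn] at hsa; push_cast at hsa; linarith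
      rw [ha'] at hqa hqa2
      rw [hsn, ha']
      push_cast
      nlinarith [sq_nonneg (q - 2)]
    · rw [h] at hsn
      have ha' : a = 1 := by rw [hsn] at hsa; push_cast at hsa; linarith
      have hq1 : q = 1 := by rw [ha'] at hqa hqa2; linarith
      rw [hsn, ha', hq1]
      norm_num
    · rw [h] at hsn
      have ha' : a = 0 := by rw [hsn] at hsa; push_cast at hsa; linarith
      have hq1 : q = 0 := by rw [ha'] at hqa hqa2; linarith
      rw [hsn, ha', hq1]
      norm_num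
  have hyy : (fun i => x i - (∑ j, x j) / 10) ⬝ᵥ (fun i => x i - (∑ j, x j) / 10) =
      s + q / 256 - 1 / 10 * (s + a / 16) ^ 2 := by
    have : ∀ c : ℝ, (fun i => x i - c) ⬝ᵥ (fun i => x i - c) = ∑ i, x i ^ 2 - 2 * c * ∑ i, x i + 10 * c ^ 2 := by
      intro c
      simp only [dotProduct]
      rw [Finset.mul_sum, ← Finset.sum_sub_distrib]
      have h10 : 10 * c ^ 2 = ∑ _i : Fin 10, c ^ 2 := by simp
      rw [h10, ← Finset.sum_add_distrib]
      exact Finset.sum_congr rfl fun i _ => by ring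
    rw [this, hsq, hsum]
    ring
  have hyy0 : (0:ℝ) < s + q / 256 - 1 / 10 * (s + a / 16) ^ 2 := by
    have h2 : (2:ℝ) ≤ s := by rw [hsn]; exact_mod_cast hB
    have h4 : s ≤ 4 := by rw [hsn]; exact_mod_cast hs4
    have ha4 : a = 4 - s := by linarith
    have hq0 : 0 ≤ q := by linarith
    rw [ha4]
    have hu0 : 0 ≤ s + (4 - s) / 16 := by linarith
    have hu4 : s + (4 - s) / 16 ≤ 4 := by linarith
    have hu : (s + (4 - s) / 16) ^ 2 ≤ 4 * (s + (4 - s) / 16) := by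
      rw [sq]; exact mul_le_mul_of_nonneg_right hu4 hu0
    linarith
  refine D.exists_eig_le (by norm_num) (by norm_num) (ι := Unit)
    (fun _ i => x i - (∑ j, x j) / 10) ?_ () ?_ (by norm_num) ?_
  · intro _
    rw [Finset.sum_sub_distrib]
    simp
    ring
  · intro h
    rw [h] at hyy
    simp at hyy
    linarith
  · simp only [Finset.univ_unique, Finset.sum_singleton]
    rw [hyy, D.form_shift (by norm_num)]
    linarith

end ten

end Design




namespace Design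

section ten
variable (D : Design 10 4 4)

lemma case2_structure (hr : ∀ i, 1 ≤ D.rep i)
    (hB : ∀ B, (∑ i, if D.rep i = 1 then D.mult i B else 0) ≤ 1) :
    (∀ i, D.rep i = 1 ∨ D.rep i = 2) ∧ (∑ i, D.eps i = 4) ∧
      (∀ B, ∑ i, D.eps i * (D.mult i B : ℝ) = 1) := by
  have hs : ∀ B, ∑ i, D.eps i * (D.mult i B : ℝ) ≤ 1 := by
    intro B
    have h1 : ∑ i, D.eps i * (D.mult i B : ℝ) = ((∑ i, if D.rep i = 1 then D.mult i B else 0 : ℕ) : ℝ) := by
      push_cast
      refine Finset.sum_congr rfl fun i _ => ?_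
      unfold eps
      split_ifs <;> simp
    rw [h1]
    exact_mod_cast hB B
  have hS : ∑ B, ∑ i, D.eps i * (D.mult i B : ℝ) = ∑ i, D.eps i := by
    rw [Finset.sum_comm]
    refine Finset.sum_congr rfl fun i _ => ?_
    rw [← Finset.mul_sum, ← repR]
    unfold eps
    split_ifs with h
    · rw [h]; simp
    · simp
  have hS4 : ∑ i, D.eps i ≤ 4 := by
    rw [← hS]
    calc ∑ B, ∑ i, D.eps i * (D.mult i B : ℝ) ≤ ∑ _B : Fin 4, (1:ℝ) := Finset.sum_le_sum fun B _ => hs B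
      _ = 4 := by simp
  have hge : ∀ i, 0 ≤ (D.rep i : ℝ) - (2 - D.eps i) := by
    intro i
    unfold eps
    split_ifs with h
    · rw [h]; norm_num
    · have h2 : 2 ≤ D.rep i := by have := hr i; omega
      have : (2:ℝ) ≤ D.rep i := by exact_mod_cast h2
      linarith
  have hsum : ∑ i, ((D.rep i : ℝ) - (2 - D.eps i)) = ∑ i, D.eps i - 4 := by
    rw [Finset.sum_sub_distrib, Finset.sum_sub_distrib, D.sum_repR]
    simp
    ring
  have hnn : 0 ≤ ∑ i, ((D.rep i : ℝ) - (2 - D.eps i)) := Finset.sum_nonneg fun i _ => hge i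
  have hS4' : ∑ i, D.eps i = 4 := by linarith
  have hz : ∑ i, ((D.rep i : ℝ) - (2 - D.eps i)) = 0 := by linarith
  rw [Finset.sum_eq_zero_iff_of_nonneg (fun i _ => hge i)] at hz
  refine ⟨?_, hS4', ?_⟩
  · intro i
    by_cases h : D.rep i = 1
    · exact Or.inl h
    · right
      have h1 := hz i (Finset.mem_univ i)
      have h2 : D.eps i = 0 := by unfold eps; rw [if_neg h]
      rw [h2] at h1
      have : (D.rep i : ℝ) = 2 := by linarith
      exact_mod_cast this
  · have hz2 : ∑ B, (1 - ∑ i, D.eps i * (D.mult i B : ℝ)) = 0 := by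
      rw [Finset.sum_sub_distrib, hS, hS4']
      simp
    rw [Finset.sum_eq_zero_iff_of_nonneg (fun B _ => by linarith [hs B])] at hz2
    intro B
    have := hz2 B (Finset.mem_univ B)
    linarith

lemma eig_case2 (hr : ∀ i, 1 ≤ D.rep i)
    (hB : ∀ B, (∑ i, if D.rep i = 1 then D.mult i B else 0) ≤ 1)
    {c : ℝ} (hc0 : 0 < c) (hc : 2 * c ^ 2 + 3 * c = 1) : ∃ t ∈ D.eigs, t ≤ (3 - 2 * c) / 4 := by
  obtain ⟨h12, hS, hs⟩ := D.case2_structure hr hB
  set w : Fin 10 → ℝ := fun i => D.eps i + (1 - D.eps i) * c with hw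
  have hRe : ∀ i, (D.rep i : ℝ) = 2 - D.eps i := by
    intro i
    unfold eps
    rcases h12 i with h | h
    · rw [if_pos h, h]; norm_num
    · rw [if_neg (by omega), h]; norm_num
  have hee : ∀ i, D.eps i * D.eps i = D.eps i := by
    intro i; rcases D.eps_cases i with h | h <;> rw [h] <;> norm_num
  -- squares of rows
  set m : Fin 10 → ℝ := fun i => ∑ B, (D.mult i B : ℝ) ^ 2 with hm
  have hm1 : ∀ i, D.eps i * m i = D.eps i := by
    intro i
    rw [hm]; simp only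
    rw [Finset.mul_sum, Finset.sum_congr rfl fun B _ => D.eps_mul_sq i B, ← Finset.mul_sum, ← repR, hRe]
    linarith [hee i]
  have hm2 : ∀ i, (D.rep i : ℝ) ≤ m i := by
    intro i
    rw [repR]
    refine Finset.sum_le_sum fun B _ => ?_
    have : D.mult i B ≤ D.mult i B ^ 2 := Nat.le_self_pow (by norm_num) _
    exact_mod_cast this
  set P : ℝ := ∑ i, (1 - D.eps i) * (m i - 1) with hP
  have hP6 : 6 ≤ P := by
    have h1 : ∑ i, (1 - D.eps i) = 6 := by
      rw [Finset.sum_sub_distrib, hS]; simp; norm_num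
    rw [← h1]
    refine Finset.sum_le_sum fun i _ => ?_
    have h2 := hm2 i
    rw [hRe] at h2
    rcases D.eps_cases i with h | h
    · rw [h] at h2 ⊢; linarith
    · rw [h]; norm_num
  -- test vectors
  set y : Fin 4 → Fin 10 → ℝ := fun B0 i => w i * ((D.mult i B0 : ℝ) - (D.rep i : ℝ) / 4) with hy
  have hwR : ∀ i, w i * (D.rep i : ℝ) = D.eps i + 2 * c * (1 - D.eps i) := by
    intro i
    rw [hRe, hw]
    rcases D.eps_cases i with h | h <;> simp only [h] <;> ring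
  have hy0 : ∀ B0, ∑ i, y B0 i = 0 := by
    intro B0
    have e1 : ∀ i, y B0 i = (1 - c) * (D.eps i * (D.mult i B0 : ℝ)) + c * (D.mult i B0 : ℝ) -
        1 / 4 * (2 * c + (1 - 2 * c) * D.eps i) := by
      intro i
      have := hwR i
      rw [hy]; simp only
      rw [mul_sub, mul_div_assoc', hwR, hw]
      ring
    have e2 : ∑ i, (2 * c + (1 - 2 * c) * D.eps i) = 20 * c + (1 - 2 * c) * 4 := by
      rw [Finset.sum_add_distrib, Finset.sum_const, ← Finset.mul_sum, hS]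
      simp
      ring
    rw [Finset.sum_congr rfl fun i _ => e1 i, Finset.sum_sub_distrib, Finset.sum_add_distrib,
      ← Finset.mul_sum, ← Finset.mul_sum, ← Finset.mul_sum, hs, D.sum_multR, e2]
    push_cast
    ring
  have hrow : ∀ i, ∑ B0, ((D.mult i B0 : ℝ) - (D.rep i : ℝ) / 4) = 0 := by
    intro i
    rw [Finset.sum_sub_distrib, ← repR]
    simp
    ring
  have hrow2 : ∀ i, ∑ B0, ((D.mult i B0 : ℝ) - (D.rep i : ℝ) / 4) ^ 2 = m i - (D.rep i : ℝ) ^ 2 / 4 := by
    intro i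
    have : ∀ B0, ((D.mult i B0 : ℝ) - (D.rep i : ℝ) / 4) ^ 2 = (D.mult i B0 : ℝ) ^ 2 -
        (D.rep i : ℝ) / 2 * (D.mult i B0 : ℝ) + (D.rep i : ℝ) ^ 2 / 16 := by intro B0; ring
    rw [Finset.sum_congr rfl fun B0 _ => this B0, Finset.sum_add_distrib, Finset.sum_sub_distrib,
      ← Finset.mul_sum, ← repR]
    simp [hm]
    ring
  have hmR : ∀ i, m i - (D.rep i : ℝ) ^ 2 / 4 = 3 / 4 * D.eps i + (1 - D.eps i) * (m i - 1) := by
    intro i
    have h1 := hm1 i
    rw [hRe]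
    rcases D.eps_cases i with h | h
    · rw [h]; ring
    · rw [h] at h1 ⊢
      have : m i = 1 := by linarith
      rw [this]; norm_num
  -- sum of squared norms
  have hnorm : ∑ B0, y B0 ⬝ᵥ y B0 = 3 + c ^ 2 * P := by
    simp only [dotProduct]
    rw [Finset.sum_comm]
    have e1 : ∀ i, ∑ B0, y B0 i * y B0 i = 3 / 4 * D.eps i + c ^ 2 * ((1 - D.eps i) * (m i - 1)) := by
      intro i
      have : ∀ B0, y B0 i * y B0 i = w i ^ 2 * ((D.mult i B0 : ℝ) - (D.rep i : ℝ) / 4) ^ 2 := by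
        intro B0; rw [hy]; ring
      rw [Finset.sum_congr rfl fun B0 _ => this B0, ← Finset.mul_sum, hrow2, hmR, hw]
      rcases D.eps_cases i with h | h <;> simp only [h] <;> ring
    rw [Finset.sum_congr rfl fun i _ => e1 i, Finset.sum_add_distrib, ← Finset.mul_sum, ← Finset.mul_sum, hS]
    rw [← hP]
    ring
  have hRsum : ∑ B0, ∑ i, (D.rep i : ℝ) * y B0 i ^ 2 = 3 + 2 * c ^ 2 * P := by
    rw [Finset.sum_comm]
    have e1 : ∀ i, ∑ B0, (D.rep i : ℝ) * y B0 i ^ 2 = 3 / 4 * D.eps i + 2 * c ^ 2 * ((1 - D.eps i) * (m i - 1)) := by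
      intro i
      have : ∀ B0, (D.rep i : ℝ) * y B0 i ^ 2 =
          (D.rep i : ℝ) * w i ^ 2 * ((D.mult i B0 : ℝ) - (D.rep i : ℝ) / 4) ^ 2 := by
        intro B0; rw [hy]; ring
      rw [Finset.sum_congr rfl fun B0 _ => this B0, ← Finset.mul_sum, hrow2, hmR, hw, hRe]
      rcases D.eps_cases i with h | h <;> simp only [h] <;> ring
    rw [Finset.sum_congr rfl fun i _ => e1 i, Finset.sum_add_distrib, ← Finset.mul_sum, ← Finset.mul_sum, hS]
    rw [← hP]
    ring
  -- the block part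
  set Z : Fin 4 → Fin 4 → ℝ := fun B0 B => ∑ i, (D.mult i B : ℝ) * y B0 i with hZ
  have htrZ : ∑ B, Z B B = 3 + c * P := by
    rw [hZ]; simp only
    rw [Finset.sum_comm]
    have e1 : ∀ i, ∑ B, (D.mult i B : ℝ) * y B i = 3 / 4 * D.eps i + c * ((1 - D.eps i) * (m i - 1)) := by
      intro i
      have : ∀ B, (D.mult i B : ℝ) * y B i = w i * (((D.mult i B : ℝ) - (D.rep i : ℝ) / 4) ^ 2 +
          (D.rep i : ℝ) / 4 * ((D.mult i B : ℝ) - (D.rep i : ℝ) / 4)) := by
        intro B; rw [hy]; ring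
      rw [Finset.sum_congr rfl fun B _ => this B, ← Finset.mul_sum, Finset.sum_add_distrib,
        ← Finset.mul_sum, hrow, hrow2, hmR, hw]
      rcases D.eps_cases i with h | h <;> simp only [h] <;> ring
    rw [Finset.sum_congr rfl fun i _ => e1 i, Finset.sum_add_distrib, ← Finset.mul_sum, ← Finset.mul_sum, hS]
    rw [← hP]
    ring
  have hZ0 : ∑ B0, ∑ B, Z B0 B = 0 := by
    rw [Finset.sum_comm]
    refine Finset.sum_eq_zero fun B _ => ?_
    rw [hZ]; simp only
    rw [Finset.sum_comm]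
    refine Finset.sum_eq_zero fun i _ => ?_
    have : ∀ B0, (D.mult i B : ℝ) * y B0 i = (D.mult i B : ℝ) * w i * ((D.mult i B0 : ℝ) - (D.rep i : ℝ) / 4) := by
      intro B0; rw [hy]; ring
    rw [Finset.sum_congr rfl fun B0 _ => this B0, ← Finset.mul_sum, hrow, mul_zero]
  have hZsq : 2 * (1 + 2 * c) * (3 + c * P) - 3 * (1 + 2 * c) ^ 2 ≤ ∑ B0, ∑ B, Z B0 B ^ 2 := by
    have hnn : 0 ≤ ∑ B0, ∑ B, (Z B0 B - (1 + 2 * c) * ((if B0 = B then 1 else 0) - 1 / 4)) ^ 2 :=
      Finset.sum_nonneg fun B _ => Finset.sum_nonneg fun B' _ => sq_nonneg _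
    have e : ∑ B0, ∑ B, (Z B0 B - (1 + 2 * c) * ((if B0 = B then 1 else 0) - 1 / 4)) ^ 2 =
        ∑ B0, ∑ B, Z B0 B ^ 2 - 2 * (1 + 2 * c) * ∑ B, Z B B + (1 + 2 * c) / 2 * ∑ B0, ∑ B, Z B0 B
          + 3 * (1 + 2 * c) ^ 2 := by
      simp only [Fin.sum_univ_four]
      simp only [Fin.isValue, Fin.reduceEq, if_true, if_false]
      ring
    rw [e, htrZ, hZ0] at hnn
    linarith
  have hformsum : ∑ B0, y B0 ⬝ᵥ (D.info *ᵥ y B0) = 3 + 2 * c ^ 2 * P - 1 / 4 * ∑ B0, ∑ B, Z B0 B ^ 2 := by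
    rw [← hRsum, Finset.mul_sum, ← Finset.sum_sub_distrib]
    refine Finset.sum_congr rfl fun B0 _ => ?_
    rw [form_eq]
    push_cast
    ring
  have hc1 : (3 - 2 * c) / 4 < 1 := by linarith
  have hnormpos : 0 < ∑ B0, y B0 ⬝ᵥ y B0 := by
    rw [hnorm]; positivity
  obtain ⟨a0, -, ha0⟩ := Finset.exists_ne_zero_of_sum_ne_zero hnormpos.ne'
  refine D.exists_eig_le (by norm_num) (by norm_num) y hy0 a0 ?_ hc1 ?_
  · intro h
    apply ha0
    rw [h]; simp
  · rw [Finset.sum_sub_distrib, ← Finset.mul_sum, hformsum, hnorm]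
    have key : 3 + 2 * c ^ 2 * P - 1 / 4 * (2 * (1 + 2 * c) * (3 + c * P) - 3 * (1 + 2 * c) ^ 2) -
        (3 - 2 * c) / 4 * (3 + c ^ 2 * P) = - (c * (1 / 4 + c / 2)) * (P - 6) := by
      linear_combination (c * P / 4) * hc
    have h1 : 0 ≤ c * (1 / 4 + c / 2) * (P - 6) := by
      apply mul_nonneg (by positivity); linarith
    linarith

end ten

end Design



namespace Design

lemma aVal_ge {v b k : ℕ} (D : Design v b k) (hv : 0 < v) (hk : 0 < k) (hc : D.Connected)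
    (f : Fin v → Fin v → ℝ) :
    ∑ i, (2 * (f i i - (∑ l, f i l) / v) - f i ⬝ᵥ (D.info *ᵥ f i)) ≤ D.aVal := by
  rw [D.aVal_eq hv hk hc]
  have hv' : (v:ℝ) ≠ 0 := by positivity
  have key : ∀ i, 2 * (f i i - (∑ l, f i l) / v) - f i ⬝ᵥ (D.info *ᵥ f i) + (v:ℝ)⁻¹ ≤ D.M⁻¹ i i := by
    intro i
    have h := inv_form_ge (D.M_posDef hv hk hc) (Pi.single i 1)
      (fun l => f i l - ((∑ l, f i l) / v - (v:ℝ)⁻¹))
    rw [form_M, D.form_shift hk, dotProduct_single_one, Matrix.mulVec_single_one,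
      single_one_dotProduct] at h
    have hs : ∑ l, (f i l - ((∑ l, f i l) / v - (v:ℝ)⁻¹)) = 1 := by
      rw [Finset.sum_sub_distrib, Finset.sum_const, Finset.card_univ, Fintype.card_fin, nsmul_eq_mul]
      field_simp
      ring
    rw [hs] at h
    simp only [Matrix.col_apply] at h
    linarith
  have htr : (D.M⁻¹).trace = ∑ i, D.M⁻¹ i i := rfl
  have h1 : ∑ i : Fin v, (2 * (f i i - (∑ l, f i l) / v) - f i ⬝ᵥ (D.info *ᵥ f i) + (v:ℝ)⁻¹) ≤ ∑ i, D.M⁻¹ i i :=
    Finset.sum_le_sum fun i _ => key i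
  rw [Finset.sum_add_distrib, Finset.sum_const, Finset.card_univ, Fintype.card_fin, nsmul_eq_mul,
    mul_inv_cancel₀ hv'] at h1
  rw [htr]
  linarith

lemma aVal_lower (D : Design 10 4 4) (hc : D.Connected) (hr : ∀ i, 1 ≤ D.rep i) : 171 / 20 ≤ D.aVal := by
  set N : Fin 10 → Fin 4 → ℝ := fun i B => (D.mult i B : ℝ) with hN
  set R : Fin 10 → ℝ := fun i => (D.rep i : ℝ) with hRdef
  have hR1 : ∀ i, 1 ≤ R i := fun i => by simp only [hRdef]; exact_mod_cast hr i
  have hR0 : ∀ i, R i ≠ 0 := fun i => by have := hR1 i; positivity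
  have hRN : ∀ i, R i = ∑ B, N i B := D.repR
  have hN0 : ∀ i B, 0 ≤ N i B := fun i B => by rw [hN]; positivity
  have hNsq : ∀ i B, N i B ≤ N i B ^ 2 := by
    intro i B
    have : D.mult i B ≤ D.mult i B ^ 2 := Nat.le_self_pow (by norm_num) _
    simp only [hN]; exact_mod_cast this
  have hR12 : ∀ i, R i = 1 ∨ 2 ≤ R i := by
    intro i
    by_cases h : D.rep i = 1
    · left; rw [hRdef]; simp [h]
    · right
      have : 2 ≤ D.rep i := by have := hr i; omega
      simp only [hRdef]; exact_mod_cast this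
  have hcol : ∀ B, ∑ i, N i B = 4 := by
    intro B; rw [hN]; simp only; rw [D.sum_multR]; norm_num
  set g : Fin 10 → Fin 10 → ℝ := fun l i => ∑ B, N l B / R l * (N i B / R i) with hg
  set τ : Fin 10 → ℝ := fun l => ∑ i, g l i with hτ
  have hmain := main_ineq N R hN0 hNsq hRN hR12 hcol g (fun l i => rfl) τ (fun l => rfl)
  -- contrasts
  set x : Fin 10 → Fin 10 → ℝ := fun i l => (if i = l then 1 else 0) - 1 / 10 with hx
  set d : Fin 10 → Fin 4 → ℝ := fun i B => ∑ l, x i l * (N l B / R l) with hd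
  set q : Fin 10 → Fin 10 → ℝ := fun i l => ∑ B, (N l B / R l) * d i B with hq
  set f : Fin 10 → Fin 10 → ℝ := fun i l => x i l / R l + 1 / 2 * q i l with hf
  have hA := D.aVal_ge (by norm_num) (by norm_num) hc f
  refine le_trans ?_ hA
  have hstep : ∀ i, ∑ l, x i l ^ 2 / R l + 1 / 4 * ∑ l, R l * q i l ^ 2 ≤
      2 * (f i i - (∑ l, f i l) / (10:ℕ)) - f i ⬝ᵥ (D.info *ᵥ f i) := by
    intro i
    have hcb := contrast_bound N R hR1 (x i) (d i) (fun _ => rfl) (q i) (fun _ => rfl) (f i) (fun _ => rfl)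
    refine le_trans hcb ?_
    rw [form_eq]
    have e1 : ∑ l, x i l * f i l = f i i - (∑ l, f i l) / (10:ℕ) := by
      rw [hx]
      simp only [sub_mul, ite_mul, one_mul, zero_mul, Finset.sum_sub_distrib, Finset.sum_ite_eq,
        Finset.mem_univ, if_true, ← Finset.mul_sum]
      push_cast
      ring
    rw [e1]
    push_cast
    exact le_refl _
  refine le_trans ?_ (Finset.sum_le_sum fun i _ => hstep i)
  rw [Finset.sum_add_distrib, ← Finset.mul_sum]
  have e1 : ∑ i, ∑ l, x i l ^ 2 / R l = 9 / 10 * ∑ l, 1 / R l := by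
    rw [Finset.sum_comm, Finset.mul_sum]
    refine Finset.sum_congr rfl fun l _ => ?_
    rw [← Finset.sum_div]
    have : ∑ i, x i l ^ 2 = 9 / 10 := by
      have h2 : ∀ i, x i l ^ 2 = (if i = l then 8 / 10 else 0) + 1 / 100 := by
        intro i; rw [hx]; simp only; split_ifs <;> norm_num
      rw [Finset.sum_congr rfl fun i _ => h2 i, Finset.sum_add_distrib]
      simp
      norm_num
    rw [this]; ring
  have e2 : ∀ i l, q i l = g l i - τ l / 10 := by
    intro i l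
    rw [hq, hd]; simp only
    have h3 : ∀ B, N l B / R l * ∑ l', x i l' * (N l' B / R l') =
        N l B / R l * (N i B / R i) - 1 / 10 * ∑ l', N l B / R l * (N l' B / R l') := by
      intro B
      rw [hx]
      simp only [sub_mul, ite_mul, one_mul, zero_mul, Finset.sum_sub_distrib, Finset.sum_ite_eq,
        Finset.mem_univ, if_true, ← Finset.mul_sum]
      ring
    rw [Finset.sum_congr rfl fun B _ => h3 B, Finset.sum_sub_distrib, ← Finset.mul_sum, Finset.sum_comm]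
    rw [hτ, hg]
    simp only
    ring
  have e3 : ∑ i, ∑ l, R l * q i l ^ 2 = ∑ l, R l * (∑ i, g l i ^ 2 - τ l ^ 2 / 10) := by
    rw [Finset.sum_comm]
    refine Finset.sum_congr rfl fun l _ => ?_
    rw [← Finset.mul_sum]
    congr 1
    rw [Finset.sum_congr rfl fun i _ => by rw [e2 i l]]
    have h4 : ∀ i, (g l i - τ l / 10) ^ 2 = g l i ^ 2 - τ l / 5 * g l i + τ l ^ 2 / 100 := by
      intro i; ring
    rw [Finset.sum_congr rfl fun i _ => h4 i, Finset.sum_add_distrib, Finset.sum_sub_distrib,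
      ← Finset.mul_sum]
    have h5 : ∑ i, g l i = τ l := rfl
    rw [h5]
    simp
    ring
  rw [e1, e3]
  exact hmain

end Design




namespace Design

variable {v b k : ℕ} (D : Design v b k)

lemma avg_mul_M (hv : 0 < v) (hk : 0 < k) : avg v * D.M = avg v := by
  have h1 : D.info * avg v = 0 := mul_avg (D.info_one hk)
  have h2 : avg v * D.info = 0 := by
    have := congrArg Matrix.transpose h1
    rw [Matrix.transpose_mul, info_symm, Matrix.transpose_zero] at this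
    exact this
  have hv' : (v:ℝ) ≠ 0 := by positivity
  have h3 : avg v * avg v = avg v := by
    ext i j
    simp [Matrix.mul_apply, avg]
    field_simp
  unfold M
  rw [Matrix.mul_add, h2, h3, zero_add]

lemma avg_mul_Minv (hv : 0 < v) (hk : 0 < k) (hc : D.Connected) : avg v * D.M⁻¹ = avg v := by
  have hdet : IsUnit D.M.det := (D.M_posDef hv hk hc).det_pos.ne'.isUnit
  calc avg v * D.M⁻¹ = avg v * D.M * D.M⁻¹ := by rw [D.avg_mul_M hv hk]
    _ = avg v := by rw [Matrix.mul_assoc, Matrix.mul_nonsing_inv _ hdet, Matrix.mul_one]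

lemma info_mul_Minv (hv : 0 < v) (hk : 0 < k) (hc : D.Connected) : D.info * D.M⁻¹ = 1 - avg v := by
  have hdet : IsUnit D.M.det := (D.M_posDef hv hk hc).det_pos.ne'.isUnit
  have : D.info = D.M - avg v := by unfold M; rw [add_sub_cancel_right]
  rw [this, Matrix.sub_mul, Matrix.mul_nonsing_inv _ hdet]
  have h2 := D.avg_mul_Minv hv hk hc
  rw [h2]

lemma isGInv_Minv (hv : 0 < v) (hk : 0 < k) (hc : D.Connected) : D.IsGInv D.M⁻¹ := by
  unfold IsGInv
  have h1 : D.info * avg v = 0 := mul_avg (D.info_one hk)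
  have h2 : avg v * D.info = 0 := by
    have := congrArg Matrix.transpose h1
    rw [Matrix.transpose_mul, info_symm, Matrix.transpose_zero] at this
    exact this
  rw [D.info_mul_Minv hv hk hc, Matrix.sub_mul, Matrix.one_mul, h2, sub_zero]

lemma pairVar_eq (hv : 0 < v) (hk : 0 < k) (hc : D.Connected) {G : Matrix (Fin v) (Fin v) ℝ}
    (hG : D.IsGInv G) (i j : Fin v) : pairVar G i j = pairVar D.M⁻¹ i j := by
  set x : Fin v → ℝ := Pi.single i 1 - Pi.single j 1 with hx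
  have hsum : avg v *ᵥ x = 0 := by
    funext l
    simp [hx, Matrix.mulVec, dotProduct, avg, mul_sub, Finset.sum_sub_distrib, Pi.single_apply]
  have hy : D.info *ᵥ (D.M⁻¹ *ᵥ x) = x := by
    rw [Matrix.mulVec_mulVec, D.info_mul_Minv hv hk hc, Matrix.sub_mulVec, Matrix.one_mulVec, hsum, sub_zero]
  set y := D.M⁻¹ *ᵥ x with hydef
  have hsymm : ∀ a c : Fin v → ℝ, (D.info *ᵥ a) ⬝ᵥ c = a ⬝ᵥ (D.info *ᵥ c) := by
    intro a c
    rw [Matrix.dotProduct_mulVec, ← Matrix.mulVec_transpose, info_symm]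
  have h1 : pairVar G i j = x ⬝ᵥ (G *ᵥ x) := rfl
  have h2 : pairVar D.M⁻¹ i j = x ⬝ᵥ y := rfl
  rw [h1, h2]
  conv_lhs => rw [← hy]
  rw [hsymm, Matrix.mulVec_mulVec, Matrix.mulVec_mulVec]
  have : D.info * G * D.info = D.info := hG
  rw [this, hy, dotProduct_comm]

end Design



def ex : Design 10 4 4 where
  block := ![{0, 1, 2, 6}, {0, 3, 4, 7}, {1, 3, 5, 8}, {2, 4, 5, 9}]
  card_block := by decide

def tbl : Fin 10 → Fin 4 → ℕ :=
  ![![1,1,0,0],![1,0,1,0],![1,0,0,1],![0,1,1,0],![0,1,0,1],![0,0,1,1],![1,0,0,0],![0,1,0,0],![0,0,1,0],![0,0,0,1]]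

set_option maxRecDepth 10000 in
lemma ex_mult : ∀ i B, ex.mult i B = tbl i B := by decide

def repTbl : Fin 10 → ℕ := ![2,2,2,2,2,2,1,1,1,1]

lemma ex_rep (i : Fin 10) : ex.rep i = repTbl i := by
  have : ∀ i, ∑ B, tbl i B = repTbl i := by decide
  rw [← this]
  unfold Design.rep
  exact Finset.sum_congr rfl fun B _ => ex_mult i B

def concTbl : Fin 10 → Fin 10 → ℕ := fun i j => ∑ B, tbl i B * tbl j B

lemma ex_conc (i j : Fin 10) : ex.conc i j = concTbl i j := by
  unfold Design.conc concTbl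
  exact Finset.sum_congr rfl fun B _ => by rw [ex_mult, ex_mult]

/-- `40 M` -/
def aInt : Fin 10 → Fin 10 → ℤ := fun i j => (if i = j then 40 * (repTbl i : ℤ) else 0) - 10 * (concTbl i j : ℤ) + 4

/-- `200 M⁻¹` -/
def wInt : Fin 10 → Fin 10 → ℤ := fun i j => (if i = j then 200 / (repTbl i : ℤ) else 0) +
  (if i.val < 6 then (if j.val < 6 then 25 else 50) else (if j.val < 6 then 50 else 100)) * (concTbl i j : ℤ)
   - (if i.val < 6 then 35 else 45) - (if j.val < 6 then 35 else 45) + 59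

set_option maxRecDepth 100000 in
lemma a_mul_w : ∀ i j, ∑ l, aInt i l * wInt l j = if i = j then 8000 else 0 := by decide

lemma ex_M (i j : Fin 10) : ex.M i j = (aInt i j : ℝ) / 40 := by
  have h1 : ex.M i j = (if i = j then (ex.rep i : ℝ) else 0) - 1 / 4 * (ex.conc i j : ℝ) + 1 / 10 := by
    unfold Design.M Design.info Design.inc Design.conc avg
    simp only [Matrix.add_apply, Matrix.sub_apply, Matrix.smul_apply, Matrix.mul_apply,
      Matrix.transpose_apply, Matrix.of_apply, Matrix.diagonal_apply, smul_eq_mul]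
    push_cast
    norm_num
  rw [h1, ex_rep, ex_conc]
  unfold aInt
  push_cast
  split_ifs <;> ring

lemma ex_M_inv : ex.M⁻¹ = Matrix.of fun i j => (wInt i j : ℝ) / 200 := by
  apply Matrix.inv_eq_right_inv
  ext i j
  rw [Matrix.mul_apply]
  have h : ∀ l, ex.M i l * (Matrix.of fun i j => (wInt i j : ℝ) / 200) l j =
      ((aInt i l * wInt l j : ℤ) : ℝ) / 8000 := by
    intro l
    rw [ex_M, Matrix.of_apply]
    push_cast
    ring
  rw [Finset.sum_congr rfl fun l _ => h l, ← Finset.sum_div, ← Int.cast_sum, a_mul_w, Matrix.one_apply]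
  split_ifs <;> norm_num

lemma w_trace : ∑ i, wInt i i = 1910 := by decide

lemma ex_trace : (ex.M⁻¹).trace = 191 / 20 := by
  rw [ex_M_inv]
  have : (Matrix.of fun i j => (wInt i j : ℝ) / 200).trace = ((∑ i, wInt i i : ℤ) : ℝ) / 200 := by
    simp only [Matrix.trace, Matrix.diag_apply, Matrix.of_apply]
    rw [← Finset.sum_div]
    push_cast
    rfl
  rw [this, w_trace]
  norm_num

lemma ex_connected : ex.Connected := by
  have hadj : ∀ i : Fin 10, i = 0 ∨ 0 < concTbl 0 i ∨ ∃ j : Fin 10, j ≠ 0 ∧ j ≠ i ∧ 0 < concTbl 0 j ∧ 0 < concTbl j i := by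
    decide
  have hreach : ∀ i : Fin 10, (SimpleGraph.fromRel fun i j : Fin 10 => 0 < ex.conc i j).Reachable 0 i := by
    intro i
    rcases hadj i with h | h | ⟨j, h0, hi, h1, h2⟩
    · rw [h]
    · by_cases hi : i = 0
      · rw [hi]
      apply SimpleGraph.Adj.reachable
      rw [SimpleGraph.fromRel_adj]
      exact ⟨fun h' => hi h'.symm, Or.inl (by rw [ex_conc]; exact h)⟩
    · refine SimpleGraph.Reachable.trans (v := j) ?_ ?_
      · apply SimpleGraph.Adj.reachable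
        rw [SimpleGraph.fromRel_adj]
        exact ⟨fun h' => h0 h'.symm, Or.inl (by rw [ex_conc]; exact h1)⟩
      · apply SimpleGraph.Adj.reachable
        rw [SimpleGraph.fromRel_adj]
        exact ⟨hi, Or.inl (by rw [ex_conc]; exact h2)⟩
  exact ⟨fun i j => (hreach i).symm.trans (hreach j)⟩

lemma ex_rep_pos (i : Fin 10) : 1 ≤ ex.rep i := by
  rw [ex_rep]
  have : ∀ i, 1 ≤ repTbl i := by decide
  exact this i

lemma ex_aVal : ex.aVal = 171 / 20 := by
  rw [ex.aVal_eq (by norm_num) (by norm_num) ex_connected, ex_trace]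
  norm_num

lemma ex_K : ex.K = (1 / 2 : ℝ) • (1 : Matrix (Fin 4) (Fin 4) ℝ) := by
  ext B B'
  have h1 : ∀ B B', ∑ l, (tbl l B : ℚ) * (tbl l B' : ℚ) / (repTbl l : ℚ) = (if B = B' then 2 else 0) + 1 / 2 := by
    decide +kernel
  have h2 : ∑ l, (ex.mult l B : ℝ) * (ex.mult l B' : ℝ) / (ex.rep l : ℝ) = (if B = B' then 2 else 0) + 1 / 2 := by
    have h3 := congrArg (fun t : ℚ => (t : ℝ)) (h1 B B')
    have h4 : ∑ l, (ex.mult l B : ℝ) * (ex.mult l B' : ℝ) / (ex.rep l : ℝ) =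
        ((∑ l, (tbl l B : ℚ) * (tbl l B' : ℚ) / (repTbl l : ℚ) : ℚ) : ℝ) := by
      push_cast
      exact Finset.sum_congr rfl fun l _ => by rw [ex_mult, ex_mult, ex_rep]
    rw [h4, h3]
    split_ifs <;> push_cast <;> norm_num
  unfold Design.K
  rw [Matrix.of_apply, h2, Matrix.smul_apply, Matrix.one_apply]
  split_ifs <;> norm_num

lemma ex_dVal : ex.dVal = 5 := by
  rw [ex.dVal_eq (by norm_num) (by norm_num), ex.det_M_formula ex_rep_pos, ex_K, Matrix.det_smul,
    Matrix.det_one, Fintype.card_fin]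
  have h : ∏ i, repTbl i = 64 := by decide
  have h1 : ∏ i, (ex.rep i : ℝ) = 64 := by
    have : ∏ i, ex.rep i = 64 := by
      rw [← h]; exact Finset.prod_congr rfl fun i _ => ex_rep i
    exact_mod_cast this
  rw [h1]
  norm_num

lemma cs4 (a b c d : ℝ) : (a + b + c + d) ^ 2 ≤ 4 * (a ^ 2 + b ^ 2 + c ^ 2 + d ^ 2) := by
  have h : 4 * (a ^ 2 + b ^ 2 + c ^ 2 + d ^ 2) - (a + b + c + d) ^ 2 =
    (a - b) ^ 2 + (a - c) ^ 2 + (a - d) ^ 2 + (b - c) ^ 2 + (b - d) ^ 2 + (c - d) ^ 2 := by ring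
  have h2 : 0 ≤ (a - b) ^ 2 + (a - c) ^ 2 + (a - d) ^ 2 + (b - c) ^ 2 + (b - d) ^ 2 + (c - d) ^ 2 := by positivity
  linarith

lemma cs6 (a b c d e f : ℝ) : (a + b + c + d + e + f) ^ 2 ≤
    6 * (a ^ 2 + b ^ 2 + c ^ 2 + d ^ 2 + e ^ 2 + f ^ 2) := by
  have h : 6 * (a ^ 2 + b ^ 2 + c ^ 2 + d ^ 2 + e ^ 2 + f ^ 2) - (a + b + c + d + e + f) ^ 2 =
    (a - b) ^ 2 + (a - c) ^ 2 + (a - d) ^ 2 + (a - e) ^ 2 + (a - f) ^ 2 + (b - c) ^ 2 + (b - d) ^ 2 +
    (b - e) ^ 2 + (b - f) ^ 2 + (c - d) ^ 2 + (c - e) ^ 2 + (c - f) ^ 2 + (d - e) ^ 2 + (d - f) ^ 2 +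
    (e - f) ^ 2 := by ring
  have h2 : 0 ≤ (a - b) ^ 2 + (a - c) ^ 2 + (a - d) ^ 2 + (a - e) ^ 2 + (a - f) ^ 2 + (b - c) ^ 2 + (b - d) ^ 2 +
    (b - e) ^ 2 + (b - f) ^ 2 + (c - d) ^ 2 + (c - e) ^ 2 + (c - f) ^ 2 + (d - e) ^ 2 + (d - f) ^ 2 +
    (e - f) ^ 2 := by positivity
  linarith

lemma sos2 {c : ℝ} (hc0 : 0 < c) (Z S : ℝ) :
    0 ≤ (c / 8 + 1 / 10) * Z ^ 2 - 1 / 20 * (Z * S) + (7 / 120 + c / 12) * S ^ 2 := by
  have h1 : 0 ≤ c * Z ^ 2 := by positivity
  have h2 : 0 ≤ c * S ^ 2 := by positivity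
  nlinarith [sq_nonneg (Z - S / 4), sq_nonneg S]

lemma sos {c : ℝ} (hc0 : 0 < c) (hc : 2 * c ^ 2 + 3 * c = 1) (y0 y1 y2 y3 y4 y5 z0 z1 z2 z3 : ℝ) :
    (3 - 2 * c) / 4 * (y0 ^ 2 + y1 ^ 2 + y2 ^ 2 + y3 ^ 2 + y4 ^ 2 + y5 ^ 2 + z0 ^ 2 + z1 ^ 2 + z2 ^ 2 + z3 ^ 2) ≤
    2 * (y0 ^ 2 + y1 ^ 2 + y2 ^ 2 + y3 ^ 2 + y4 ^ 2 + y5 ^ 2) + (z0 ^ 2 + z1 ^ 2 + z2 ^ 2 + z3 ^ 2) -
    1 / 4 * ((z0 + y0 + y1 + y2) ^ 2 + (z1 + y0 + y3 + y4) ^ 2 + (z2 + y1 + y3 + y5) ^ 2 + (z3 + y2 + y4 + y5) ^ 2) +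
    1 / 10 * (y0 + y1 + y2 + y3 + y4 + y5 + z0 + z1 + z2 + z3) ^ 2 := by
  set t0 := z0 + y0 + y1 + y2 with ht0
  set t1 := z1 + y0 + y3 + y4 with ht1
  set t2 := z2 + y1 + y3 + y5 with ht2
  set t3 := z3 + y2 + y4 + y5 with ht3
  set Z := z0 + z1 + z2 + z3 with hZ
  set S := y0 + y1 + y2 + y3 + y4 + y5 with hS
  set T := t0 + t1 + t2 + t3 with hT
  set p0 := z0 - (1 + c) / 2 * t0 with hp0
  set p1 := z1 - (1 + c) / 2 * t1 with hp1
  set p2 := z2 - (1 + c) / 2 * t2 with hp2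
  set p3 := z3 - (1 + c) / 2 * t3 with hp3
  set w0 := y0 - (1 - c) / 4 * (t0 + t1) with hw0
  set w1 := y1 - (1 - c) / 4 * (t0 + t2) with hw1
  set w2 := y2 - (1 - c) / 4 * (t0 + t3) with hw2
  set w3 := y3 - (1 - c) / 4 * (t1 + t2) with hw3
  set w4 := y4 - (1 - c) / 4 * (t1 + t3) with hw4
  set w5 := y5 - (1 - c) / 4 * (t2 + t3) with hw5
  have hTZS : T = Z + 2 * S := by rw [hT, hZ, hS, ht0, ht1, ht2, ht3]; ring
  have stepA : 2 * (y0 ^ 2 + y1 ^ 2 + y2 ^ 2 + y3 ^ 2 + y4 ^ 2 + y5 ^ 2) + (z0 ^ 2 + z1 ^ 2 + z2 ^ 2 + z3 ^ 2) -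
      1 / 4 * (t0 ^ 2 + t1 ^ 2 + t2 ^ 2 + t3 ^ 2) -
      (3 - 2 * c) / 4 * (y0 ^ 2 + y1 ^ 2 + y2 ^ 2 + y3 ^ 2 + y4 ^ 2 + y5 ^ 2 + z0 ^ 2 + z1 ^ 2 + z2 ^ 2 + z3 ^ 2) =
      (1 + 2 * c) / 4 * (p0 ^ 2 + p1 ^ 2 + p2 ^ 2 + p3 ^ 2) +
      (5 + 2 * c) / 4 * (w0 ^ 2 + w1 ^ 2 + w2 ^ 2 + w3 ^ 2 + w4 ^ 2 + w5 ^ 2) - (1 - c) / 16 * T ^ 2 := by
    rw [hp0, hp1, hp2, hp3, hw0, hw1, hw2, hw3, hw4, hw5, hT, ht0, ht1, ht2, ht3]
    linear_combination (-(-1 / 4 * (z0 * (z0 + y0 + y1 + y2) + z1 * (z1 + y0 + y3 + y4) + z2 * (z2 + y1 + y3 + y5)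
      + z3 * (z3 + y2 + y4 + y5))
      + (1 + c) / 16 * ((z0 + y0 + y1 + y2) ^ 2 + (z1 + y0 + y3 + y4) ^ 2 + (z2 + y1 + y3 + y5) ^ 2 + (z3 + y2 + y4 + y5) ^ 2)
      + 1 / 8 * (y0 * (z0 + y0 + y1 + y2 + (z1 + y0 + y3 + y4)) + y1 * (z0 + y0 + y1 + y2 + (z2 + y1 + y3 + y5))
        + y2 * (z0 + y0 + y1 + y2 + (z3 + y2 + y4 + y5)) + y3 * (z1 + y0 + y3 + y4 + (z2 + y1 + y3 + y5))
        + y4 * (z1 + y0 + y3 + y4 + (z3 + y2 + y4 + y5)) + y5 * (z2 + y1 + y3 + y5 + (z3 + y2 + y4 + y5)))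
      - (1 - c) / 64 * (2 * ((z0 + y0 + y1 + y2) ^ 2 + (z1 + y0 + y3 + y4) ^ 2 + (z2 + y1 + y3 + y5) ^ 2 + (z3 + y2 + y4 + y5) ^ 2)
        + (z0 + y0 + y1 + y2 + (z1 + y0 + y3 + y4) + (z2 + y1 + y3 + y5) + (z3 + y2 + y4 + y5)) ^ 2))) * hc
  have hP : p0 + p1 + p2 + p3 = Z - (1 + c) / 2 * T := by
    rw [hp0, hp1, hp2, hp3, hZ, hT]; ring
  have hW : w0 + w1 + w2 + w3 + w4 + w5 = S - 3 * (1 - c) / 4 * T := by
    rw [hw0, hw1, hw2, hw3, hw4, hw5, hS, hT]; ring
  have hcs1 := cs4 p0 p1 p2 p3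
  have hcs2 := cs6 w0 w1 w2 w3 w4 w5
  rw [hP] at hcs1
  rw [hW] at hcs2
  have stepC : (1 + 2 * c) / 16 * (Z - (1 + c) / 2 * T) ^ 2 + (5 + 2 * c) / 24 * (S - 3 * (1 - c) / 4 * T) ^ 2 -
      (1 - c) / 16 * T ^ 2 + 1 / 10 * (Z + S) ^ 2 =
      (c / 8 + 1 / 10) * Z ^ 2 - 1 / 20 * (Z * S) + (7 / 120 + c / 12) * S ^ 2 := by
    rw [hTZS]
    linear_combination ((1 / 4) * (-1 / 4 * Z * (Z + 2 * S) + (1 + c) / 16 * (Z + 2 * S) ^ 2) +
      (1 / 6) * (3 / 8 * S * (Z + 2 * S) - 9 / 64 * (1 - c) * (Z + 2 * S) ^ 2)) * hc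
  have stepD := sos2 hc0 Z S
  have h3 : (1 + 2 * c) / 16 * (Z - (1 + c) / 2 * T) ^ 2 ≤ (1 + 2 * c) / 4 * (p0 ^ 2 + p1 ^ 2 + p2 ^ 2 + p3 ^ 2) := by
    have := mul_le_mul_of_nonneg_left hcs1 (by positivity : 0 ≤ (1 + 2 * c) / 16)
    linarith
  have h4 : (5 + 2 * c) / 24 * (S - 3 * (1 - c) / 4 * T) ^ 2 ≤
      (5 + 2 * c) / 4 * (w0 ^ 2 + w1 ^ 2 + w2 ^ 2 + w3 ^ 2 + w4 ^ 2 + w5 ^ 2) := by
    have := mul_le_mul_of_nonneg_left hcs2 (by positivity : 0 ≤ (5 + 2 * c) / 24)
    linarith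
  have h5 : (y0 + y1 + y2 + y3 + y4 + y5 + z0 + z1 + z2 + z3) ^ 2 = (Z + S) ^ 2 := by
    rw [hZ, hS]; ring
  rw [h5]
  linarith

lemma ex_form_ge {c : ℝ} (hc0 : 0 < c) (hc : 2 * c ^ 2 + 3 * c = 1) (x : Fin 10 → ℝ) :
    (3 - 2 * c) / 4 * (x ⬝ᵥ x) ≤ x ⬝ᵥ (ex.M *ᵥ x) := by
  rw [Design.form_M, Design.form_eq]
  have h := sos hc0 hc (x 0) (x 1) (x 2) (x 3) (x 4) (x 5) (x 6) (x 7) (x 8) (x 9)
  have e1 : x ⬝ᵥ x = x 0 ^ 2 + x 1 ^ 2 + x 2 ^ 2 + x 3 ^ 2 + x 4 ^ 2 + x 5 ^ 2 + x 6 ^ 2 + x 7 ^ 2 + x 8 ^ 2 + x 9 ^ 2 := by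
    simp only [dotProduct, Fin.sum_univ_succ]
    simp [Fin.succ]
    ring
  have e2 : ∑ i, (ex.rep i : ℝ) * x i ^ 2 = 2 * (x 0 ^ 2 + x 1 ^ 2 + x 2 ^ 2 + x 3 ^ 2 + x 4 ^ 2 + x 5 ^ 2) +
      (x 6 ^ 2 + x 7 ^ 2 + x 8 ^ 2 + x 9 ^ 2) := by
    simp only [ex_rep, repTbl, Fin.sum_univ_succ]
    simp [Fin.succ]
    ring
  have e3 : ∑ B, (∑ i, (ex.mult i B : ℝ) * x i) ^ 2 = (x 6 + x 0 + x 1 + x 2) ^ 2 + (x 7 + x 0 + x 3 + x 4) ^ 2 +
      (x 8 + x 1 + x 3 + x 5) ^ 2 + (x 9 + x 2 + x 4 + x 5) ^ 2 := by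
    simp only [ex_mult, tbl, Fin.sum_univ_succ]
    simp [Fin.succ]
    ring
  have e4 : ∑ i, x i = x 0 + x 1 + x 2 + x 3 + x 4 + x 5 + x 6 + x 7 + x 8 + x 9 := by
    simp only [Fin.sum_univ_succ]
    simp [Fin.succ]
    ring
  rw [e1, e2, e3, e4]
  push_cast
  linarith


namespace Design

variable {v b k : ℕ} (D : Design v b k)

lemma rep_pos (hv : 1 < v) (hc : D.Connected) (i : Fin v) : 1 ≤ D.rep i := by
  have : ∃ j : Fin v, i ≠ j := by
    have : Nontrivial (Fin v) := Fin.nontrivial_iff_two_le.mpr hv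
    obtain ⟨j, hj⟩ := exists_ne i
    exact ⟨j, hj.symm⟩
  obtain ⟨j, hij⟩ := this
  obtain ⟨w⟩ := hc.preconnected i j
  cases w with
  | nil => exact absurd rfl hij
  | @cons _ l _ hadj _ =>
    rw [SimpleGraph.fromRel_adj] at hadj
    obtain ⟨-, h | h⟩ := hadj
    · obtain ⟨B, -, hB⟩ := Finset.exists_ne_zero_of_sum_ne_zero (s := Finset.univ)
        (f := fun B => D.mult i B * D.mult l B) h.ne'
      have h1 : D.mult i B ≠ 0 := fun h0 => hB (by rw [h0, zero_mul])
      have h2 : D.mult i B ≤ D.rep i :=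
        Finset.single_le_sum (f := fun B => D.mult i B) (fun _ _ => Nat.zero_le _) (Finset.mem_univ B)
      omega
    · obtain ⟨B, -, hB⟩ := Finset.exists_ne_zero_of_sum_ne_zero (s := Finset.univ)
        (f := fun B => D.mult l B * D.mult i B) h.ne'
      have h1 : D.mult i B ≠ 0 := fun h0 => hB (by rw [h0, mul_zero])
      have h2 : D.mult i B ≤ D.rep i :=
        Finset.single_le_sum (f := fun B => D.mult i B) (fun _ _ => Nat.zero_le _) (Finset.mem_univ B)
      omega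

end Design

noncomputable def cc : ℝ := (√17 - 3) / 4

lemma cc_pos : 0 < cc := by
  have : (3:ℝ) < √17 := Real.lt_sqrt_of_sq_lt (by norm_num)
  unfold cc
  linarith

lemma cc_eq : 2 * cc ^ 2 + 3 * cc = 1 := by
  have : (√17) ^ 2 = (17:ℝ) := Real.sq_sqrt (by norm_num)
  unfold cc
  linarith

lemma cc_le : 3 / 5 ≤ (3 - 2 * cc) / 4 := by
  have : √17 ≤ (21 / 5 : ℝ) := Real.sqrt_le_iff.mpr ⟨by norm_num, by norm_num⟩
  unfold cc
  linarith

lemma eVal_le_all (D : Design 10 4 4) (hc : D.Connected) : D.eVal ≤ (3 - 2 * cc) / 4 := by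
  have hr := D.rep_pos (by norm_num) hc
  apply D.eVal_le
  by_cases h : ∀ B, (∑ i, if D.rep i = 1 then D.mult i B else 0) ≤ 1
  · exact D.eig_case2 hr h cc_pos cc_eq
  · push Not at h
    obtain ⟨B, hB⟩ := h
    obtain ⟨t, ht, hle⟩ := D.eig_case1 hr B hB
    exact ⟨t, ht, hle.trans cc_le⟩

lemma ex_eVal_ge : (3 - 2 * cc) / 4 ≤ ex.eVal :=
  ex.le_eVal (by norm_num) (by norm_num) (ex_form_ge cc_pos cc_eq)

lemma pairVar_ex (i j : Fin 10) :
    pairVar ex.M⁻¹ i j = ((wInt i i - wInt i j - wInt j i + wInt j j : ℤ) : ℝ) / 200 := by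
  unfold pairVar
  rw [ex_M_inv]
  simp only [Matrix.mulVec_sub, Matrix.mulVec_single_one, sub_dotProduct, dotProduct_sub,
    single_one_dotProduct, Matrix.col_apply, Matrix.of_apply]
  push_cast
  ring

theorem result : ∃ D : Design 10 4 4, D.AOptimal ∧ D.DOptimal ∧ D.EOptimal ∧ (∃ G, D.IsGInv G) ∧
    ∃ i j m n : Fin 10, i ≠ j ∧ m ≠ n ∧ D.conc i j = 1 ∧ D.conc m n = 0 ∧
      ∀ G, D.IsGInv G → pairVar G i j = 7 / 4 ∧ pairVar G m n = 3 / 2 := by
  refine ⟨ex, ⟨ex_connected, fun D' hc => ?_⟩, ⟨ex_connected, fun D' hc => ?_⟩,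
    ⟨ex_connected, fun D' hc => ?_⟩, ⟨_, ex.isGInv_Minv (by norm_num) (by norm_num) ex_connected⟩,
    6, 0, 0, 5, by decide, by decide, ?_, ?_, fun G hG => ⟨?_, ?_⟩⟩
  · rw [ex_aVal]
    exact D'.aVal_lower hc (D'.rep_pos (by norm_num) hc)
  · rw [ex_dVal, D'.dVal_eq (by norm_num) (by norm_num)]
    exact D'.det_M_le (D'.rep_pos (by norm_num) hc)
  · exact (eVal_le_all D' hc).trans ex_eVal_ge
  · rw [ex_conc]; decide
  · rw [ex_conc]; decide
  · rw [ex.pairVar_eq (by norm_num) (by norm_num) ex_connected hG, pairVar_ex]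
    have : wInt 6 6 - wInt 6 0 - wInt 0 6 + wInt 0 0 = 350 := by decide
    rw [this]; norm_num
  · rw [ex.pairVar_eq (by norm_num) (by norm_num) ex_connected hG, pairVar_ex]
    have : wInt 0 0 - wInt 0 5 - wInt 5 0 + wInt 5 5 = 300 := by decide
    rw [this]; norm_num

end Pool.Agent.Results.MP_c32163_co.ConcurrenceVariance
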