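import Pool.Agent.Lib.MP_c32163_co.DV.Ex

/-!
# Distance and pairwise variance in an `E`-optimal regular-graph design

The design has 24 treatments and 36 blocks of size two, so it is a cubic graph; it is `E`-optimal
among all connected equireplicate designs in `D(24,36,2)`, and in it two treatments at distance
three have a larger pairwise variance than two treatments at distance four.

The definitions used in the statement are those of `Pool.Agent.Lib.MP_c32163_co.DV.Defs`.
-/

namespace Pool.Agent.Results.MP_c32163_co.DistanceVariance

open Pool.Agent.Lib.MP_c32163_co.DV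

/-- An `E`-optimal regular-graph design (among equireplicate designs) in which distance three goes
with a strictly larger pairwise variance than distance four. -/
theorem result : ∃ D : Design 24 36 2, D.IsRegularGraph ∧ D.EOptimal ∧ (∃ G, D.IsGInv G) ∧
    ∃ i j m n : Fin 24, i ≠ j ∧ m ≠ n ∧ D.graph.edist i j = 3 ∧ D.graph.edist m n = 4 ∧
      ∀ G, D.IsGInv G → pairVar G i j = 844 / 405 ∧ pairVar G m n = 5021 / 2430 := by
  obtain ⟨D, i, j, m, n, h1, h2, h3, h4, h5, h6, h7, h8⟩ := main
  exact ⟨D, h1, h2, h7, i, j, m, n, h3, h4, h5, h6, h8⟩

end Pool.Agent.Results.MP_c32163_co.DistanceVariance
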